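import Pool.Agent.Helper57.KD3.Geom

/-! KD project Part III: core of a tile at the bottom velocity (variant of (T4), needed for the
lowest levels). -/

namespace KD.III

variable {d : ℕ}

lemma slack0 (s : ℝ) (c : Cell d) : ∀ k : ℕ, ∀ i,
    c.2.2 i - rho k * (TT s k c).2.2 i = 0 →
      0 ≤ c.2.1 i - XX s k * (TT s k c).2.1 i -
        (c.1 - tau s k * (TT s k c).1) * (rho k * (TT s k c).2.2 i) ∧
      c.2.1 i - XX s k * (TT s k c).2.1 i -
        (c.1 - tau s k * (TT s k c).1) * (rho k * (TT s k c).2.2 i) < XX s k := by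
  intro k
  induction k with
  | zero =>
    intro i _
    simp [XX, tau_zero, rho, TT_zero]
  | succ k ih =>
    intro i hz
    obtain ⟨⟨ht0, ht1⟩, hv⟩ := slack s c k
    obtain ⟨⟨hv0, hv1⟩, _⟩ := hv i
    have ih := ih i
    set g := TT s k c with hg
    have hT : TT s (k + 1) c = par s k g := rfl
    have he : 0 < ek s k := ek_pos s k
    have hτ := tau_pos s k
    have hρ := rho_pos k
    have hX := XX_pos s k
    have han : ek s k * (g.1 / ek s k) + g.1 % ek s k = g.1 := Int.mul_ediv_add_emod _ _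
    have hT1 : (TT s (k + 1) c).1 = g.1 / ek s k := rfl
    set a := g.1 % ek s k with had
    set n' := g.1 / ek s k with hn'
    have key : c.1 - tau s (k + 1) * n' = (c.1 - tau s k * g.1) + tau s k * a := by
      rw [tau_succ, ← han]; ring
    have hc0 : 0 ≤ g.2.2 i % 2 := Int.emod_nonneg _ (by norm_num)
    have hcn : 2 * (g.2.2 i / 2) + g.2.2 i % 2 = g.2.2 i := Int.mul_ediv_add_emod _ _
    have hT3 : (TT s (k + 1) c).2.2 i = g.2.2 i / 2 := rfl
    have hT2 : (TT s (k + 1) c).2.1 i = (g.2.1 i - 2 * a * (g.2.2 i / 2)) / (2 * ek s k) := rfl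
    set l' := g.2.2 i / 2 with hl'
    set cc := g.2.2 i % 2 with hcc
    have he2 : 0 < 2 * ek s k := by positivity
    have hb0 : 0 ≤ (g.2.1 i - 2 * a * l') % (2 * ek s k) := Int.emod_nonneg _ he2.ne'
    have hb1 : (g.2.1 i - 2 * a * l') % (2 * ek s k) < 2 * ek s k := Int.emod_lt_of_pos _ he2
    have hbn : 2 * ek s k * ((g.2.1 i - 2 * a * l') / (2 * ek s k)) +
      (g.2.1 i - 2 * a * l') % (2 * ek s k) = g.2.1 i - 2 * a * l' := Int.mul_ediv_add_emod _ _
    set b := (g.2.1 i - 2 * a * l') % (2 * ek s k) with hb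
    set m' := (g.2.1 i - 2 * a * l') / (2 * ek s k) with hm'
    have hvkey : c.2.2 i - rho (k + 1) * l' = (c.2.2 i - rho k * g.2.2 i) + rho k * cc := by
      rw [rho_succ, ← hcn]; ring
    have hxkey : c.2.1 i - XX s (k + 1) * m' - (c.1 - tau s (k + 1) * n') * (rho (k + 1) * l') =
        (c.2.1 i - XX s k * g.2.1 i - (c.1 - tau s k * g.1) * (rho k * g.2.2 i)) + XX s k * b +
        (c.1 - tau s k * g.1) * (rho k * cc) := by
      have e1 : XX s (k + 1) * m' = XX s k * (g.2.1 i - 2 * a * l' - b) := by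
        rw [XX_succ, ← hbn]; ring
      rw [e1, key, rho_succ, XX_eq]
      have e2 : cc = g.2.2 i - 2 * l' := by rw [← hcn]; ring
      rw [e2]; ring
    rw [hT3, hvkey] at hz
    have hcc0 : 0 ≤ rho k * cc := mul_nonneg hρ.le hc0
    have hcz : rho k * cc = 0 := by linarith
    have hvz : c.2.2 i - rho k * g.2.2 i = 0 := by linarith
    obtain ⟨h2, h3⟩ := ih hvz
    rw [hT1, hT2, hT3, hxkey, hcz, mul_zero, add_zero, XX_succ]
    constructor
    · have : 0 ≤ XX s k * b := by positivity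
      linarith
    · have : XX s k * b ≤ XX s k * (2 * ek s k - 1) :=
        mul_le_mul_of_nonneg_left (by omega) hX.le
      nlinarith

/-- core at the bottom velocity: no lower margin in `x` is needed -/
theorem tile_core0 (s : ℝ) (k : ℕ) (g c : Cell d)
    (ht0 : 0 ≤ c.1 - tau s k * g.1) (ht1 : c.1 - tau s k * g.1 < tau s k)
    (hv : ∀ i, c.2.2 i - rho k * g.2.2 i = 0)
    (hx0 : ∀ i, 0 ≤
      c.2.1 i - XX s k * g.2.1 i - (c.1 - tau s k * g.1) * (rho k * g.2.2 i))
    (hx1 : ∀ i,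
      c.2.1 i - XX s k * g.2.1 i - (c.1 - tau s k * g.1) * (rho k * g.2.2 i) < XX s k) :
    c ∈ Tile s k g := by
  rw [mem_Tile]
  obtain ⟨ht, hv'⟩ := slack s c k
  have hρ := rho_pos k
  have hn : (TT s k c).1 = g.1 := floor_unique (tau_pos s k) ht.1 ht.2 ht0 ht1
  have hl : ∀ i, (TT s k c).2.2 i = g.2.2 i := fun i =>
    floor_unique hρ (hv' i).1.1 (hv' i).1.2 (by rw [hv i]) (by rw [hv i]; exact hρ)
  have hm : ∀ i, (TT s k c).2.1 i = g.2.1 i := by
    intro i
    obtain ⟨h2, h3⟩ := slack0 s c k i (by rw [hl i]; exact hv i)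
    rw [hn, hl i] at h2 h3
    refine floor_unique (t := c.2.1 i - (c.1 - tau s k * g.1) * (rho k * g.2.2 i))
      (XX_pos s k) ?_ ?_ ?_ ?_
    · linarith
    · linarith
    · linarith [hx0 i]
    · linarith [hx1 i]
  exact Prod.ext hn (Prod.ext (funext hm) (funext hl))

end KD.III
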