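import Pool.Agent.Helper57.KD3.Stacks

/-! KD project Part III: counting (T1), containers, growth of the time scales. -/

namespace KD.III

variable {d : ℕ}

/-- a box of cells -/
def bx (d : ℕ) (t1 x0 x1 v1 : ℤ) : Set (Cell d) :=
  {c | (0 ≤ c.1 ∧ c.1 < t1) ∧ (∀ i, x0 ≤ c.2.1 i ∧ c.2.1 i < x1) ∧
    ∀ i, 0 ≤ c.2.2 i ∧ c.2.2 i < v1}

/-- the same box as a finset -/
noncomputable def bxF (d : ℕ) (t1 x0 x1 v1 : ℤ) : Finset (Cell d) :=
  Finset.Ico 0 t1 ×ˢ (Fintype.piFinset (fun _ : Fin d => Finset.Ico x0 x1) ×ˢ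
    Fintype.piFinset (fun _ : Fin d => Finset.Ico 0 v1))

lemma mem_bxF (t1 x0 x1 v1 : ℤ) (c : Cell d) :
    c ∈ bxF d t1 x0 x1 v1 ↔ (0 ≤ c.1 ∧ c.1 < t1) ∧ (∀ i, x0 ≤ c.2.1 i ∧ c.2.1 i < x1) ∧
      ∀ i, 0 ≤ c.2.2 i ∧ c.2.2 i < v1 := by
  simp [bxF, Finset.mem_product, Fintype.mem_piFinset]

lemma coe_bxF (t1 x0 x1 v1 : ℤ) : (bxF d t1 x0 x1 v1 : Set (Cell d)) = bx d t1 x0 x1 v1 := by
  ext c
  rw [Finset.mem_coe, mem_bxF]; rfl

lemma card_bxF (t1 x0 x1 v1 : ℤ) :
    (bxF d t1 x0 x1 v1).card = t1.toNat * ((x1 - x0).toNat ^ d * v1.toNat ^ d) := by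
  simp [bxF, Finset.card_product, Fintype.card_piFinset]

lemma bx_finite (t1 x0 x1 v1 : ℤ) : (bx d t1 x0 x1 v1).Finite := by
  rw [← coe_bxF]; exact Finset.finite_toSet _

lemma bx_ncard (t1 x0 x1 v1 : ℤ) :
    (bx d t1 x0 x1 v1).ncard = t1.toNat * ((x1 - x0).toNat ^ d * v1.toNat ^ d) := by
  rw [← coe_bxF, Set.ncard_coe_finset, card_bxF]

lemma vol_eq (d : ℕ) (s : ℝ) (k : ℕ) :
    vol d s k = (tau s k).toNat * ((XX s k).toNat ^ d * (rho k).toNat ^ d) := by
  have h1 := tau_pos s k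
  have h2 := XX_pos s k
  have h3 := rho_pos k
  have : ((vol d s k : ℕ) : ℤ) =
      (((tau s k).toNat * ((XX s k).toNat ^ d * (rho k).toNat ^ d) : ℕ) : ℤ) := by
    rw [vol_cast]
    push_cast
    rw [Int.toNat_of_nonneg h1.le, Int.toNat_of_nonneg h2.le, Int.toNat_of_nonneg h3.le]
    ring
  exact_mod_cast this

theorem box_finite (s : ℝ) (K : ℕ) : (Box s K : Set (Cell d)).Finite :=
  bx_finite (tau s K) 0 (XX s K) (rho K)

theorem box_ncard (s : ℝ) (K : ℕ) : (Box s K : Set (Cell d)).ncard = vol d s K := by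
  have : (Box s K : Set (Cell d)) = bx d (tau s K) 0 (XX s K) (rho K) := rfl
  rw [this, bx_ncard, vol_eq, sub_zero]

theorem bigBox_finite (s : ℝ) (K : ℕ) : (BigBox s K : Set (Cell d)).Finite :=
  bx_finite (2 * tau s K) (-XX s K) (2 * XX s K) (rho K)

/-- growth of the time scales -/
theorem tau_growth (s : ℝ) (hs : 0 < s) (G : ℕ) :
    ∃ L : ℕ, 1 ≤ L ∧ ∀ k, (G : ℤ) * tau s k ≤ tau s (k + L) := by
  refine ⟨⌈(G : ℝ) / (2 * s)⌉₊ + 1, by omega, fun k => ?_⟩
  set L := ⌈(G : ℝ) / (2 * s)⌉₊ + 1 with hL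
  have hL2 : (G : ℝ) ≤ 2 * s * L := by
    have h1 : (G : ℝ) / (2 * s) ≤ ⌈(G : ℝ) / (2 * s)⌉₊ := Nat.le_ceil _
    have h2 : (G : ℝ) / (2 * s) ≤ L := by rw [hL]; push_cast; linarith
    rwa [div_le_iff₀ (by positivity), mul_comm] at h2
  rw [tau_eq hs.le, tau_eq hs.le]
  have hfl : ⌊2 * s * k⌋₊ + G ≤ ⌊2 * s * ((k + L : ℕ) : ℝ)⌋₊ := by
    apply Nat.le_floor
    push_cast
    have h3 : (⌊2 * s * k⌋₊ : ℝ) ≤ 2 * s * k := Nat.floor_le (by positivity)
    linarith
  have h4 : (G : ℤ) ≤ 2 ^ G := by exact_mod_cast (Nat.lt_two_pow_self).le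
  calc (G : ℤ) * 2 ^ ⌊2 * s * k⌋₊ ≤ 2 ^ G * 2 ^ ⌊2 * s * k⌋₊ :=
        mul_le_mul_of_nonneg_right h4 (by positivity)
    _ = 2 ^ (⌊2 * s * k⌋₊ + G) := by rw [pow_add, mul_comm]
    _ ≤ _ := pow_le_pow_right₀ (by norm_num) hfl

lemma one_add_pow_le_two (n : ℕ) : (1 + 1 / (2 * ((n : ℝ) + 1))) ^ (n + 1) ≤ 2 := by
  have h1 : (1 + 1 / (2 * ((n : ℝ) + 1))) ≤ Real.exp (1 / (2 * ((n : ℝ) + 1))) := by
    have := Real.add_one_le_exp (1 / (2 * ((n : ℝ) + 1)))
    linarith
  have h2 : (1 + 1 / (2 * ((n : ℝ) + 1))) ^ (n + 1) ≤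
      Real.exp (1 / (2 * ((n : ℝ) + 1))) ^ (n + 1) :=
    pow_le_pow_left₀ (by positivity) h1 _
  have h3 : Real.exp (1 / (2 * ((n : ℝ) + 1))) ^ (n + 1) = Real.exp (1 / 2) := by
    rw [← Real.exp_nat_mul]
    congr 1
    push_cast
    field_simp
  have h4 : Real.exp (1 / 2) ≤ 2 := by
    have h5 : Real.exp (1 / 2) ^ 2 = Real.exp 1 := by
      rw [← Real.exp_nat_mul]; norm_num
    have h6 := Real.exp_one_lt_d9
    nlinarith [Real.exp_pos (1 / 2 : ℝ)]
  linarith

/-- the container has at most twice the size of the box if the margins are small -/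
theorem bb_ncard (s : ℝ) (K : ℕ) (A W : ℤ) (hA : 0 ≤ A) (hW : 0 ≤ W)
    (hA1 : 4 * ((d : ℤ) + 1) * A ≤ tau s K) (hW1 : 4 * ((d : ℤ) + 1) * W ≤ XX s K) :
    (BB s K A W : Set (Cell d)).Finite ∧
    (BB s K A W : Set (Cell d)).ncard ≤ 2 * vol d s K := by
  have e : (BB s K A W : Set (Cell d)) = bx d (tau s K + A) (-W) (XX s K + W) (rho K) := rfl
  rw [e]
  refine ⟨bx_finite _ _ _ _, ?_⟩
  rw [bx_ncard, vol_eq]
  have h1 := tau_pos s K
  have h2 := XX_pos s K
  have h3 := rho_pos K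
  have e1 : (((tau s K + A).toNat : ℕ) : ℝ) = (tau s K : ℝ) + A := by
    have : (((tau s K + A).toNat : ℕ) : ℤ) = tau s K + A := Int.toNat_of_nonneg (by linarith)
    exact_mod_cast this
  have e2 : (((XX s K + W - -W).toNat : ℕ) : ℝ) = (XX s K : ℝ) + 2 * W := by
    have : (((XX s K + W - -W).toNat : ℕ) : ℤ) = XX s K + 2 * W := by
      rw [Int.toNat_of_nonneg (by linarith)]; ring
    exact_mod_cast this
  have e3 : (((tau s K).toNat : ℕ) : ℝ) = (tau s K : ℝ) := by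
    exact_mod_cast Int.toNat_of_nonneg h1.le
  have e4 : (((XX s K).toNat : ℕ) : ℝ) = (XX s K : ℝ) := by
    exact_mod_cast Int.toNat_of_nonneg h2.le
  have h1' : (0 : ℝ) < tau s K := by exact_mod_cast h1
  have h2' : (0 : ℝ) < XX s K := by exact_mod_cast h2
  have hA' : (0 : ℝ) ≤ A := by exact_mod_cast hA
  have hW' : (0 : ℝ) ≤ W := by exact_mod_cast hW
  have hA2 : 4 * ((d : ℝ) + 1) * A ≤ tau s K := by exact_mod_cast hA1
  have hW2 : 4 * ((d : ℝ) + 1) * W ≤ XX s K := by exact_mod_cast hW1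
  have hd : (0 : ℝ) ≤ d := Nat.cast_nonneg d
  set y : ℝ := 1 + 1 / (2 * ((d : ℝ) + 1)) with hy
  have b1 : (tau s K : ℝ) + A ≤ y * tau s K := by
    have : (A : ℝ) ≤ 1 / (2 * ((d : ℝ) + 1)) * tau s K := by
      rw [div_mul_eq_mul_div, one_mul, le_div_iff₀ (by positivity)]
      nlinarith
    rw [hy]; linarith
  have b2 : (XX s K : ℝ) + 2 * W ≤ y * XX s K := by
    have : 2 * (W : ℝ) ≤ 1 / (2 * ((d : ℝ) + 1)) * XX s K := by
      rw [div_mul_eq_mul_div, one_mul, le_div_iff₀ (by positivity)]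
      nlinarith
    rw [hy]; linarith
  have hyp : 0 < y := by rw [hy]; positivity
  have main : ((tau s K : ℝ) + A) * ((XX s K : ℝ) + 2 * W) ^ d ≤
      2 * (tau s K * (XX s K : ℝ) ^ d) := by
    calc ((tau s K : ℝ) + A) * ((XX s K : ℝ) + 2 * W) ^ d
        ≤ (y * tau s K) * (y * XX s K) ^ d := by
          apply mul_le_mul b1 _ (by positivity) (by positivity)
          exact pow_le_pow_left₀ (by positivity) b2 d
      _ = y ^ (d + 1) * (tau s K * (XX s K : ℝ) ^ d) := by rw [mul_pow, pow_succ]; ring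
      _ ≤ 2 * (tau s K * (XX s K : ℝ) ^ d) :=
          mul_le_mul_of_nonneg_right (one_add_pow_le_two d) (by positivity)
  have goal : (((tau s K + A).toNat * ((XX s K + W - -W).toNat ^ d * (rho K).toNat ^ d) : ℕ) : ℝ)
      ≤ ((2 * ((tau s K).toNat * ((XX s K).toNat ^ d * (rho K).toNat ^ d)) : ℕ) : ℝ) := by
    push_cast
    rw [e1, e2, e3, e4]
    have hr : (0 : ℝ) ≤ (((rho K).toNat : ℕ) : ℝ) ^ d := by positivity
    calc ((tau s K : ℝ) + A) * (((XX s K : ℝ) + 2 * W) ^ d * (((rho K).toNat : ℕ) : ℝ) ^ d)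
        = (((tau s K : ℝ) + A) * ((XX s K : ℝ) + 2 * W) ^ d) * (((rho K).toNat : ℕ) : ℝ) ^ d := by
          ring
      _ ≤ (2 * (tau s K * (XX s K : ℝ) ^ d)) * (((rho K).toNat : ℕ) : ℝ) ^ d :=
          mul_le_mul_of_nonneg_right main hr
      _ = _ := by ring
  exact_mod_cast goal

/-! ### (T1) -/

/-- the children of the index `g` -/
noncomputable def child (s : ℝ) (k : ℕ) (g : Cell d) (p : Cell d) : Cell d :=
  (ek s k * g.1 + p.1, fun i => 2 * p.1 * g.2.2 i + 2 * ek s k * g.2.1 i + p.2.1 i,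
    fun i => 2 * g.2.2 i + p.2.2 i)

lemma child_inj (s : ℝ) (k : ℕ) (g : Cell d) : Function.Injective (child s k g) := by
  rintro ⟨a, b, c⟩ ⟨a', b', c'⟩ h
  simp only [child, Prod.mk.injEq] at h
  obtain ⟨h1, h2, h3⟩ := h
  have ha : a = a' := by linarith
  subst ha
  have hb : b = b' := by
    funext i
    have := congrFun h2 i
    beta_reduce at this
    linarith
  have hc : c = c' := by
    funext i
    have := congrFun h3 i
    beta_reduce at this
    linarith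
  rw [hb, hc]

/-- the fibre of the parent map -/
lemma par_eq_iff (s : ℝ) (k : ℕ) (g h : Cell d) :
    par s k h = g ↔ ∃ p ∈ bxF d (ek s k) 0 (2 * ek s k) 2, child s k g p = h := by
  have he := ek_pos s k
  constructor
  · rintro rfl
    refine ⟨(h.1 % ek s k, fun i => (h.2.1 i - 2 * (h.1 % ek s k) * (h.2.2 i / 2)) % (2 * ek s k),
      fun i => h.2.2 i % 2), ?_, ?_⟩
    · rw [mem_bxF]
      refine ⟨⟨Int.emod_nonneg _ he.ne', Int.emod_lt_of_pos _ he⟩, fun i => ⟨?_, ?_⟩,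
        fun i => ⟨?_, ?_⟩⟩
      · exact Int.emod_nonneg _ (by positivity)
      · exact Int.emod_lt_of_pos _ (by positivity)
      · exact Int.emod_nonneg _ (by norm_num)
      · exact Int.emod_lt_of_pos _ (by norm_num)
    · refine Prod.ext ?_ (Prod.ext (funext fun i => ?_) (funext fun i => ?_))
      · simp only [child, par]
        exact Int.mul_ediv_add_emod _ _
      · simp only [child, par]
        have := Int.mul_ediv_add_emod (h.2.1 i - 2 * (h.1 % ek s k) * (h.2.2 i / 2)) (2 * ek s k)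
        linarith
      · simp only [child, par]
        exact Int.mul_ediv_add_emod _ _
  · rintro ⟨p, hp, rfl⟩
    rw [mem_bxF] at hp
    obtain ⟨⟨a0, a1⟩, hb, hc⟩ := hp
    have e1 : (ek s k * g.1 + p.1) / ek s k = g.1 := by
      rw [add_comm, Int.add_mul_ediv_left _ _ he.ne', Int.ediv_eq_zero_of_lt a0 a1, zero_add]
    have e2 : (ek s k * g.1 + p.1) % ek s k = p.1 := by
      rw [add_comm, Int.add_mul_emod_self_left, Int.emod_eq_of_lt a0 a1]
    have e3 : ∀ i, (2 * g.2.2 i + p.2.2 i) / 2 = g.2.2 i := by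
      intro i
      rw [add_comm, Int.add_mul_ediv_left _ _ (by norm_num),
        Int.ediv_eq_zero_of_lt (hc i).1 (hc i).2, zero_add]
    refine Prod.ext ?_ (Prod.ext (funext fun i => ?_) (funext fun i => ?_))
    · simp only [child, par]; exact e1
    · simp only [child, par]
      rw [e2, e3 i]
      have : 2 * p.1 * g.2.2 i + 2 * ek s k * g.2.1 i + p.2.1 i - 2 * p.1 * g.2.2 i =
        p.2.1 i + 2 * ek s k * g.2.1 i := by ring
      rw [this, Int.add_mul_ediv_left _ _ (by positivity),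
        Int.ediv_eq_zero_of_lt (hb i).1 (hb i).2, zero_add]
    · simp only [child, par]; exact e3 i

/-- (T1) -/
theorem tile_finite (s : ℝ) (k : ℕ) (g : Cell d) : (Tile s k g).Finite := tile_finite' s k g

theorem tile_ncard (s : ℝ) (k : ℕ) (g : Cell d) : (Tile s k g).ncard = vol d s k := by
  classical
  induction k generalizing g with
  | zero =>
    have : Tile s 0 g = {g} := by
      ext c; simp [mem_Tile, TT_zero]
    rw [this, Set.ncard_singleton]
    simp [vol, tau_zero, XX, rho]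
  | succ k ih =>
    set Φ : Finset (Cell d) := (bxF d (ek s k) 0 (2 * ek s k) 2).image (child s k g) with hΦ
    have hΦm : ∀ h, h ∈ Φ ↔ par s k h = g := by
      intro h
      rw [par_eq_iff, hΦ, Finset.mem_image]
    set U := (tile_finite' s (k + 1) g).toFinset with hU
    have hUm : ∀ c, c ∈ U ↔ TT s (k + 1) c = g := by intro c; simp [hU, mem_Tile]
    have e1 : (Tile s (k + 1) g).ncard = U.card := Set.ncard_eq_toFinset_card _ _
    have f1 : U.card = ∑ h ∈ Φ, (U.filter (fun c => TT s k c = h)).card :=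
      Finset.card_eq_sum_card_fiberwise (fun c hc => by
        rw [Finset.mem_coe, hΦm]
        exact (hUm c).mp hc)
    have f2 : ∀ h ∈ Φ, (U.filter (fun c => TT s k c = h)).card = vol d s k := by
      intro h hh
      rw [← ih h, ← Set.ncard_coe_finset]
      congr 1
      ext c
      rw [Finset.mem_coe, Finset.mem_filter, hUm, mem_Tile]
      constructor
      · exact fun h1 => h1.2
      · intro h1
        exact ⟨by rw [TT_succ, h1]; exact (hΦm h).mp hh, h1⟩
    rw [e1, f1, Finset.sum_congr rfl f2, Finset.sum_const, smul_eq_mul, hΦ,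
      Finset.card_image_of_injective _ (child_inj s k g), card_bxF]
    have he := ek_pos s k
    have : (((ek s k).toNat * ((2 * ek s k - 0).toNat ^ d * (2 : ℤ).toNat ^ d) * vol d s k : ℕ) : ℤ)
        = ((vol d s (k + 1) : ℕ) : ℤ) := by
      push_cast
      rw [vol_cast, vol_cast, Int.toNat_of_nonneg he.le,
        Int.toNat_of_nonneg (show 0 ≤ 2 * ek s k - 0 by linarith), tau_succ, XX_succ, rho_succ]
      rw [mul_pow, mul_pow, mul_pow]
      simp only [sub_zero]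
      rw [mul_pow]
      ring
    exact_mod_cast this

end KD.III
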