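import Mathlib

/-! KD project Part III: the one-dimensional lemma (T6). -/

namespace KD.III

/-- the credit argument: downward induction on the left end point -/
lemma oneD_aux {ι : Type*} (S : Finset ι) (a : ι → ℤ) (b : ι → ℕ) (q : ℕ) (I J : Finset ℤ)
    (hI : ∀ y, y ∈ I ↔ ∃ i ∈ S, a i ≤ y ∧ y < a i + b i)
    (hJ : ∀ y, y ∈ J ↔ ∃ i ∈ S, a i + b i ≤ y ∧ y < a i + (q + 1) * b i)
    (hi : ℤ) (hhi : ∀ y ∈ I ∪ J, y < hi) :
    ∀ n : ℕ, ∀ y : ℤ, hi - y ≤ n →
      q * ((I \ J).filter (fun z => y ≤ z)).card ≤ (J.filter (fun z => y ≤ z)).card := by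
  intro n
  induction n using Nat.strong_induction_on with
  | _ n ih =>
    intro y hy
    by_cases hyhi : hi ≤ y
    · have : (I \ J).filter (fun z => y ≤ z) = ∅ := by
        apply Finset.filter_eq_empty_iff.mpr
        intro z hz hyz
        have := hhi z (Finset.mem_union_left _ (Finset.mem_sdiff.mp hz).1)
        omega
      rw [this]; simp
    · have hyhi' : y < hi := not_le.mp hyhi
      by_cases hyI : y ∈ I \ J
      · obtain ⟨hyI1, hyJ⟩ := Finset.mem_sdiff.mp hyI
        obtain ⟨i, hiS, h1, h2⟩ := (hI y).mp hyI1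
        set z := a i + (q + 1) * (b i : ℤ) with hz
        have hqb : 0 ≤ (q : ℤ) * b i := by positivity
        have hyz : y < z := by rw [hz]; nlinarith
        -- inductive statement at z
        have hz' : hi - z ≤ ((n - 1 : ℕ) : ℤ) := by omega
        have hn : n - 1 < n := by omega
        have ihz := ih (n - 1) hn z hz'
        have hsub1 : (I \ J).filter (fun w => y ≤ w) ⊆
            Finset.Ico (a i) (a i + b i) ∪ (I \ J).filter (fun w => z ≤ w) := by
          intro w hw
          obtain ⟨hw1, hw2⟩ := Finset.mem_filter.mp hw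
          obtain ⟨hwI, hwJ⟩ := Finset.mem_sdiff.mp hw1
          by_cases hwz : z ≤ w
          · exact Finset.mem_union_right _ (Finset.mem_filter.mpr ⟨hw1, hwz⟩)
          · apply Finset.mem_union_left
            rw [Finset.mem_Ico]
            refine ⟨by linarith, ?_⟩
            by_contra hcon
            apply hwJ
            exact (hJ w).mpr ⟨i, hiS, not_lt.mp hcon, by rw [← hz]; exact not_le.mp hwz⟩
        have hsub2 : Finset.Ico (a i + b i) z ∪ J.filter (fun w => z ≤ w) ⊆
            J.filter (fun w => y ≤ w) := by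
          intro w hw
          rcases Finset.mem_union.mp hw with hw | hw
          · rw [Finset.mem_Ico] at hw
            exact Finset.mem_filter.mpr ⟨(hJ w).mpr ⟨i, hiS, hw.1, hw.2⟩, by linarith⟩
          · obtain ⟨hw1, hw2⟩ := Finset.mem_filter.mp hw
            exact Finset.mem_filter.mpr ⟨hw1, by linarith⟩
        have hdisj : Disjoint (Finset.Ico (a i + b i : ℤ) z) (J.filter (fun w => z ≤ w)) := by
          rw [Finset.disjoint_left]
          intro w hw1 hw2
          rw [Finset.mem_Ico] at hw1
          have := (Finset.mem_filter.mp hw2).2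
          linarith
        have c1 := Finset.card_le_card hsub1
        have c2 := Finset.card_le_card hsub2
        rw [Finset.card_union_of_disjoint hdisj] at c2
        have c3 := Finset.card_union_le (Finset.Ico (a i) (a i + b i))
          ((I \ J).filter (fun w => z ≤ w))
        have k1 : (Finset.Ico (a i) (a i + b i)).card = b i := by simp
        have k2 : (Finset.Ico (a i + b i : ℤ) z).card = q * b i := by
          rw [Int.card_Ico, hz]
          have : a i + (q + 1) * (b i : ℤ) - (a i + b i) = ((q * b i : ℕ) : ℤ) := by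
            push_cast; ring
          rw [this]; exact Int.toNat_natCast _
        rw [k1] at c3
        rw [k2] at c2
        calc q * ((I \ J).filter (fun w => y ≤ w)).card
            ≤ q * (b i + ((I \ J).filter (fun w => z ≤ w)).card) :=
              Nat.mul_le_mul_left _ (le_trans c1 c3)
          _ = q * b i + q * ((I \ J).filter (fun w => z ≤ w)).card := by ring
          _ ≤ q * b i + (J.filter (fun w => z ≤ w)).card := Nat.add_le_add_left ihz _
          _ ≤ _ := c2
      · have hz' : hi - (y + 1) ≤ ((n - 1 : ℕ) : ℤ) := by omega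
        have hn : n - 1 < n := by omega
        have ihz := ih (n - 1) hn (y + 1) hz'
        have e1 : (I \ J).filter (fun w => y ≤ w) ⊆ (I \ J).filter (fun w => y + 1 ≤ w) := by
          intro w hw
          obtain ⟨hw1, hw2⟩ := Finset.mem_filter.mp hw
          refine Finset.mem_filter.mpr ⟨hw1, ?_⟩
          rcases eq_or_lt_of_le hw2 with h | h
          · exfalso; apply hyI; rw [h]; exact hw1
          · exact h
        have e2 : J.filter (fun w => y + 1 ≤ w) ⊆ J.filter (fun w => y ≤ w) := by
          intro w hw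
          obtain ⟨hw1, hw2⟩ := Finset.mem_filter.mp hw
          exact Finset.mem_filter.mpr ⟨hw1, by linarith⟩
        calc q * ((I \ J).filter (fun w => y ≤ w)).card
            ≤ q * ((I \ J).filter (fun w => y + 1 ≤ w)).card :=
              Nat.mul_le_mul_left _ (Finset.card_le_card e1)
          _ ≤ (J.filter (fun w => y + 1 ≤ w)).card := ihz
          _ ≤ _ := Finset.card_le_card e2

/-- (T6) one-dimensional lemma -/
theorem oneD {ι : Type*} (S : Finset ι) (a : ι → ℤ) (b : ι → ℕ) (q : ℕ) :
    q * (⋃ i ∈ S, Set.Ico (a i) (a i + b i)).ncard ≤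
      (q + 1) * (⋃ i ∈ S, Set.Ico (a i + b i) (a i + (q + 1) * b i)).ncard := by
  classical
  set I : Finset ℤ := S.biUnion (fun i => Finset.Ico (a i) (a i + b i)) with hIdef
  set J : Finset ℤ := S.biUnion (fun i => Finset.Ico (a i + b i) (a i + (q + 1) * b i)) with hJdef
  have e1 : (⋃ i ∈ S, Set.Ico (a i) (a i + b i)) = (I : Set ℤ) := by
    rw [hIdef]; push_cast; rfl
  have e2 : (⋃ i ∈ S, Set.Ico (a i + b i) (a i + (q + 1) * b i)) = (J : Set ℤ) := by
    rw [hJdef]; push_cast; rfl
  rw [e1, e2, Set.ncard_coe_finset, Set.ncard_coe_finset]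
  have hI : ∀ y, y ∈ I ↔ ∃ i ∈ S, a i ≤ y ∧ y < a i + b i := by
    intro y; simp [hIdef]
  have hJ : ∀ y, y ∈ J ↔ ∃ i ∈ S, a i + b i ≤ y ∧ y < a i + (q + 1) * b i := by
    intro y; simp [hJdef]
  obtain ⟨hi, hhi⟩ : ∃ hi : ℤ, ∀ y ∈ I ∪ J, y < hi := by
    obtain ⟨M, hM⟩ := (I ∪ J).bddAbove
    exact ⟨M + 1, fun y hy => by have := hM hy; omega⟩
  obtain ⟨lo, hlo⟩ : ∃ lo : ℤ, ∀ y ∈ I ∪ J, lo ≤ y := by
    obtain ⟨M, hM⟩ := (I ∪ J).bddBelow
    exact ⟨M, fun y hy => hM hy⟩
  have main := oneD_aux S a b q I J hI hJ hi hhi (hi - lo).toNat lo (by omega)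
  rw [Finset.filter_true_of_mem (fun y hy =>
      hlo y (Finset.mem_union_left _ (Finset.mem_sdiff.mp hy).1)),
    Finset.filter_true_of_mem (fun y hy => hlo y (Finset.mem_union_right _ hy))] at main
  have hcard : I.card ≤ (I \ J).card + J.card := by
    have := Finset.card_le_card (show I ⊆ (I \ J) ∪ J by
      intro y hy
      by_cases h : y ∈ J
      · exact Finset.mem_union_right _ h
      · exact Finset.mem_union_left _ (Finset.mem_sdiff.mpr ⟨hy, h⟩))
    exact le_trans this (Finset.card_union_le _ _)
  calc q * I.card ≤ q * ((I \ J).card + J.card) := Nat.mul_le_mul_left _ hcard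
    _ = q * (I \ J).card + q * J.card := by ring
    _ ≤ J.card + q * J.card := Nat.add_le_add_right main _
    _ = (q + 1) * J.card := by ring

end KD.III
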