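import Pool.Agent.Helper57.KD3.Geom
import Pool.Agent.Helper57.KD3.OneD

/-! KD project Part III: (T7) tiles against stacks. -/

namespace KD.III

variable {d : ℕ}

/-- the straightening map of a tile index -/
noncomputable def straight (s : ℝ) (k : ℕ) (g : Cell d) (c : Cell d) : Cell d :=
  (c.1 - tau s k * g.1,
    fun i => c.2.1 i - XX s k * g.2.1 i - (c.1 - tau s k * g.1) * (rho k * g.2.2 i),
    fun i => c.2.2 i - rho k * g.2.2 i)

lemma straight_inj (s : ℝ) (k : ℕ) (g : Cell d) : Function.Injective (straight s k g) := by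
  rintro ⟨t, x, v⟩ ⟨t', x', v'⟩ h
  simp only [straight, Prod.mk.injEq] at h
  obtain ⟨h1, h2, h3⟩ := h
  have ht : t = t' := by linarith
  subst ht
  have hx : x = x' := by
    funext i
    have := congrFun h2 i
    beta_reduce at this
    linarith
  have hv : v = v' := by
    funext i
    have := congrFun h3 i
    beta_reduce at this
    linarith
  rw [hx, hv]

lemma icc_finite (a b : Cell d) : (Set.Icc a b).Finite := by
  have : Set.Icc a b = Set.Icc a.1 b.1 ×ˢ (Set.Icc a.2.1 b.2.1 ×ˢ Set.Icc a.2.2 b.2.2) := by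
    rw [Set.Icc_prod_Icc, Set.Icc_prod_Icc]
  rw [this]
  exact (Set.finite_Icc _ _).prod ((Set.finite_Icc _ _).prod (Set.finite_Icc _ _))

lemma stk_finite (s : ℝ) (k q : ℕ) (g : Cell d) : (Stk s k q g).Finite := by
  apply Set.Finite.subset (Set.Finite.preimage (f := straight s k g)
    (straight_inj s k g).injOn
    (icc_finite (((0 : ℤ), (fun _ => 0), (fun _ => 0)) : Cell d)
      (((q + 1) * tau s k, (fun _ => (q + 3) * XX s k), (fun _ => rho k)) : Cell d)))
  intro c hc
  obtain ⟨⟨h1, h2⟩, hv⟩ := stk_geom s k q g c hc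
  have hτ := tau_pos s k
  rw [Set.mem_preimage, Set.mem_Icc]
  refine ⟨⟨?_, ?_, ?_⟩, ⟨?_, ?_, ?_⟩⟩
  · simp only [straight]
    linarith
  · intro i; exact (hv i).2.1
  · intro i; exact (hv i).1.1
  · simp only [straight]
    have h3 : tau s k * (g.1 + 1 + q) = tau s k * g.1 + (q + 1) * tau s k := by ring
    linarith
  · intro i; exact (hv i).2.2.le
  · intro i; exact (hv i).1.2.le

lemma tile_finite' (s : ℝ) (k : ℕ) (g : Cell d) : (Tile s k g).Finite := by
  apply Set.Finite.subset (Set.Finite.preimage (f := straight s k g)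
    (straight_inj s k g).injOn
    (icc_finite (((0 : ℤ), (fun _ => 0), (fun _ => 0)) : Cell d)
      ((tau s k, (fun _ => 2 * XX s k), (fun _ => rho k)) : Cell d)))
  intro c hc
  obtain ⟨⟨h1, h2⟩, hv⟩ := tile_geom s k g c hc
  rw [Set.mem_preimage, Set.mem_Icc]
  refine ⟨⟨h1, ?_, ?_⟩, ⟨h2.le, ?_, ?_⟩⟩
  · intro i; exact (hv i).2.1
  · intro i; exact (hv i).1.1
  · intro i; exact (hv i).2.2.le
  · intro i; exact (hv i).1.2.le

/-- the line invariant `(x - t v, v)` of a cell -/
def line (c : Cell d) : (Fin d → ℤ) × (Fin d → ℤ) := (fun i => c.2.1 i - c.1 * c.2.2 i, c.2.2)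

lemma line_inj {c c' : Cell d} (h : line c = line c') (ht : c.1 = c'.1) : c = c' := by
  obtain ⟨t, x, v⟩ := c
  obtain ⟨t', x', v'⟩ := c'
  simp only [line, Prod.mk.injEq] at h ht
  obtain ⟨h1, h2⟩ := h
  subst ht; subst h2
  have hx : x = x' := by
    funext i
    have := congrFun h1 i
    beta_reduce at this
    linarith
  rw [hx]

/-- (T7) -/
theorem tiles_le_stacks (s : ℝ) (q : ℕ) (F : Finset (ℕ × Cell d)) :
    q * (⋃ p ∈ F, Tile s p.1 p.2).ncard ≤ (q + 1) * (⋃ p ∈ F, Stk s p.1 q p.2).ncard := by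
  classical
  have hUfin : (⋃ p ∈ F, Tile s p.1 p.2).Finite :=
    Set.Finite.biUnion F.finite_toSet (fun p _ => tile_finite' s p.1 p.2)
  have hWfin : (⋃ p ∈ F, Stk s p.1 q p.2).Finite :=
    Set.Finite.biUnion F.finite_toSet (fun p _ => stk_finite s p.1 q p.2)
  set U : Finset (Cell d) := hUfin.toFinset with hU
  set W : Finset (Cell d) := hWfin.toFinset with hW
  have hUm : ∀ c, c ∈ U ↔ ∃ p ∈ F, c ∈ Tile s p.1 p.2 := by intro c; simp [hU]
  have hWm : ∀ c, c ∈ W ↔ ∃ p ∈ F, c ∈ Stk s p.1 q p.2 := by intro c; simp [hW]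
  have e1 : (⋃ p ∈ F, Tile s p.1 p.2).ncard = U.card := by
    rw [hU]; exact Set.ncard_eq_toFinset_card _ hUfin
  have e2 : (⋃ p ∈ F, Stk s p.1 q p.2).ncard = W.card := by
    rw [hW]; exact Set.ncard_eq_toFinset_card _ hWfin
  rw [e1, e2]
  set Ω := (U ∪ W).image line with hΩ
  have f1 : U.card = ∑ ω ∈ Ω, (U.filter (fun c => line c = ω)).card :=
    Finset.card_eq_sum_card_fiberwise (fun c hc => Finset.mem_image_of_mem _
      (Finset.mem_union_left _ hc))
  have f2 : W.card = ∑ ω ∈ Ω, (W.filter (fun c => line c = ω)).card :=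
    Finset.card_eq_sum_card_fiberwise (fun c hc => Finset.mem_image_of_mem _
      (Finset.mem_union_right _ hc))
  rw [f1, f2, Finset.mul_sum, Finset.mul_sum]
  apply Finset.sum_le_sum
  intro ω _
  set S : Finset (ℕ × Cell d) := F.filter (fun p => ∃ c ∈ Tile s p.1 p.2, line c = ω) with hS
  have hone := oneD S (fun p => tau s p.1 * p.2.1) (fun p => (tau s p.1).toNat) q
  have hcast : ∀ p : ℕ × Cell d, (((tau s p.1).toNat : ℕ) : ℤ) = tau s p.1 := fun p =>
    Int.toNat_of_nonneg (tau_pos s p.1).le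
  simp only [hcast] at hone
  -- times of the tiles on the line
  have g1 : (U.filter (fun c => line c = ω)).card ≤
      (⋃ p ∈ S, Set.Ico (tau s p.1 * p.2.1) (tau s p.1 * p.2.1 + tau s p.1)).ncard := by
    have hfin : (⋃ p ∈ S, Set.Ico (tau s p.1 * p.2.1) (tau s p.1 * p.2.1 + tau s p.1)).Finite :=
      Set.Finite.biUnion S.finite_toSet (fun p _ => Set.finite_Ico _ _)
    rw [← Set.ncard_coe_finset]
    apply Set.ncard_le_ncard_of_injOn (fun c : Cell d => c.1) _ _ hfin
    · intro c hc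
      obtain ⟨hc1, hc2⟩ := Finset.mem_filter.mp (Finset.mem_coe.mp hc)
      obtain ⟨p, hp, hcp⟩ := (hUm c).mp hc1
      obtain ⟨⟨t0, t1⟩, _⟩ := tile_geom s p.1 p.2 c hcp
      rw [Set.mem_iUnion₂]
      refine ⟨p, Finset.mem_filter.mpr ⟨hp, c, hcp, hc2⟩, ?_, ?_⟩
      · linarith
      · linarith
    · intro c hc c' hc' h
      have h1 := (Finset.mem_filter.mp (Finset.mem_coe.mp hc)).2
      have h2 := (Finset.mem_filter.mp (Finset.mem_coe.mp hc')).2
      exact line_inj (by rw [h1, h2]) h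
  have g2 : (⋃ p ∈ S, Set.Ico (tau s p.1 * p.2.1 + tau s p.1)
      (tau s p.1 * p.2.1 + (q + 1) * tau s p.1)).ncard ≤
      (W.filter (fun c => line c = ω)).card := by
    have himg : (⋃ p ∈ S, Set.Ico (tau s p.1 * p.2.1 + tau s p.1)
        (tau s p.1 * p.2.1 + (q + 1) * tau s p.1)) ⊆
        ((W.filter (fun c => line c = ω)).image (fun c => c.1) : Finset ℤ) := by
      intro t ht
      rw [Set.mem_iUnion₂] at ht
      obtain ⟨p, hp, h1, h2⟩ := ht
      obtain ⟨hpF, c, hcT, hcl⟩ := Finset.mem_filter.mp hp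
      obtain ⟨⟨t0, t1⟩, _⟩ := tile_geom s p.1 p.2 c hcT
      have hge : 0 ≤ t - c.1 := by linarith
      rw [Finset.mem_coe, Finset.mem_image]
      refine ⟨(t, fun i => c.2.1 i + (t - c.1) * c.2.2 i, c.2.2), ?_, rfl⟩
      rw [Finset.mem_filter]
      constructor
      · rw [hWm]
        refine ⟨p, hpF, (t - c.1).toNat, ?_, ?_, ?_⟩
        · have e : (((t - c.1).toNat : ℕ) : ℤ) = t - c.1 := Int.toNat_of_nonneg hge
          rw [e]
          have : ((t - (t - c.1), fun i => c.2.1 i + (t - c.1) * c.2.2 i - (t - c.1) * c.2.2 i,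
              c.2.2) : Cell d) = c := by
            obtain ⟨t', x, v⟩ := c
            simp
          simp only at this ⊢
          rw [this]; exact hcT
        · simp only; linarith
        · simp only
          have : tau s p.1 * (p.2.1 + 1 + q) = tau s p.1 * p.2.1 + (q + 1) * tau s p.1 := by ring
          linarith
      · rw [← hcl]
        simp only [line, Prod.mk.injEq, and_true]
        funext i
        ring
    calc _ ≤ (((W.filter (fun c => line c = ω)).image (fun c => c.1) : Finset ℤ) : Set ℤ).ncard :=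
          Set.ncard_le_ncard himg (Finset.finite_toSet _)
      _ = ((W.filter (fun c => line c = ω)).image (fun c => c.1)).card := Set.ncard_coe_finset _
      _ ≤ _ := Finset.card_image_le
  calc q * (U.filter (fun c => line c = ω)).card ≤ q * _ := Nat.mul_le_mul_left _ g1
    _ ≤ (q + 1) * _ := hone
    _ ≤ (q + 1) * _ := Nat.mul_le_mul_left _ g2

end KD.III
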