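import Pool.Agent.Helper57.KD3.Stop
import Pool.Agent.Helper57.KD3.Stacks

/-! KD project Part III: the covering theorem COV. -/

namespace KD.III

lemma bb_zero {d : ℕ} (s : ℝ) (K : ℕ) : (BB s K 0 0 : Set (Cell d)) = Box s K := by
  unfold BB Box
  simp

lemma bb_subset_bigBox {d : ℕ} (s : ℝ) (K : ℕ) (A W : ℤ) (hA : A ≤ tau s K)
    (hW : W ≤ XX s K) : (BB s K A W : Set (Cell d)) ⊆ BigBox s K := by
  rintro c ⟨⟨h1, h2⟩, h3, h4⟩
  refine ⟨⟨h1, by linarith⟩, fun i => ⟨?_, ?_⟩, h4⟩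
  · linarith [(h3 i).1]
  · linarith [(h3 i).2]

/-- **COV**, the deliverable of Part III -/
theorem COV (d : ℕ) (s : ℝ) (hs : 0 < s) (δ : ℝ) (hδ : 0 < δ) (hδ1 : δ < 1) :
    ∃ q L J : ℕ, 1 ≤ q ∧ 1 ≤ L ∧ 1 ≤ J ∧ ∀ K, L ≤ K → ∀ E : ℕ → Set (Cell d),
      (∀ j, E j ⊆ E (j + 1)) →
      ((Box s K : Set (Cell d)).ncard : ℝ) / 2 ≤ ((E 0 ∩ Box s K).ncard : ℝ) →
      (∀ j < J, ∀ k < K - L, ∀ g : Cell d, (Tile s k g ∩ BigBox s K).Nonempty →
        (1 - δ) * vol d s k ≤ ((E j ∩ Tile s k g).ncard : ℝ) →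
        Stk s (k + 1) q (par s k g) ⊆ E (j + 1)) →
      ∃ j ≤ J, ∃ g : Cell d, (Tile s (K - L) g ∩ BigBox s K).Nonempty ∧
        (1 - δ) * vol d s (K - L) ≤ ((E j ∩ Tile s (K - L) g).ncard : ℝ) := by
  classical
  -- parameters
  obtain ⟨q, hq1, hq2⟩ : ∃ q : ℕ, 1 ≤ q ∧ 2 / δ ≤ q := by
    refine ⟨⌈2 / δ⌉₊ + 1, by omega, ?_⟩
    push_cast
    have := Nat.le_ceil (2 / δ)
    linarith
  obtain ⟨J, hJ1, hJ2⟩ : ∃ J : ℕ, 1 ≤ J ∧ 4 < (1 + δ / 2) ^ J := by
    obtain ⟨n, hn⟩ := pow_unbounded_of_one_lt 4 (show (1 : ℝ) < 1 + δ / 2 by linarith)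
    refine ⟨n + 1, by omega, lt_of_lt_of_le hn ?_⟩
    exact pow_le_pow_right₀ (by linarith) (Nat.le_succ n)
  obtain ⟨L, hL1, hL2⟩ := tau_growth s hs (4 * (d + 1) * (J * (2 * q + 4)))
  refine ⟨q, L, J, hq1, hL1, hJ1, ?_⟩
  intro K hLK E hE h0 hH
  by_contra hcon
  push Not at hcon
  set k1 := K - L with hk1
  have hk1K : k1 ≤ K := Nat.sub_le _ _
  have hgrow : ((4 * (d + 1) * (J * (2 * q + 4)) : ℕ) : ℤ) * tau s k1 ≤ tau s K := by
    have := hL2 k1
    rwa [hk1, Nat.sub_add_cancel hLK] at this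
  push_cast at hgrow
  have hτ1 := tau_pos s k1
  have hρK := rho_pos K
  have hτK := tau_pos s K
  have hvol : (0 : ℝ) < vol d s K := by exact_mod_cast vol_pos d s K
  -- margins
  set A : ℕ → ℤ := fun j => j * ((q + 1) * tau s k1) with hAdef
  set W : ℕ → ℤ := fun j => j * ((2 * q + 4) * (tau s k1 * rho K)) with hWdef
  have hA0 : ∀ j, 0 ≤ A j := fun j => by simp only [hAdef]; positivity
  have hW0 : ∀ j, 0 ≤ W j := fun j => by simp only [hWdef]; positivity
  have hAj : ∀ j ≤ J, 4 * ((d : ℤ) + 1) * A j ≤ tau s K := by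
    intro j hj
    have hjJ : (j : ℤ) ≤ J := by exact_mod_cast hj
    refine le_trans ?_ hgrow
    simp only [hAdef]
    have h1 : (j : ℤ) * ((q + 1) * tau s k1) ≤ J * ((2 * q + 4) * tau s k1) := by
      apply mul_le_mul hjJ _ (by positivity) (by positivity)
      apply mul_le_mul_of_nonneg_right _ hτ1.le
      have : (0 : ℤ) ≤ q := by positivity
      linarith
    calc 4 * ((d : ℤ) + 1) * (j * ((q + 1) * tau s k1))
        ≤ 4 * ((d : ℤ) + 1) * (J * ((2 * q + 4) * tau s k1)) :=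
          mul_le_mul_of_nonneg_left h1 (by positivity)
      _ = 4 * ((d : ℤ) + 1) * (J * (2 * q + 4)) * tau s k1 := by ring
  have hWj : ∀ j ≤ J, 4 * ((d : ℤ) + 1) * W j ≤ XX s K := by
    intro j hj
    have hjJ : (j : ℤ) ≤ J := by exact_mod_cast hj
    rw [XX_eq]
    refine le_trans ?_ (mul_le_mul_of_nonneg_right hgrow hρK.le)
    simp only [hWdef]
    have h1 : (j : ℤ) * ((2 * q + 4) * (tau s k1 * rho K)) ≤
        J * ((2 * q + 4) * (tau s k1 * rho K)) :=
      mul_le_mul_of_nonneg_right hjJ (by positivity)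
    calc 4 * ((d : ℤ) + 1) * (j * ((2 * q + 4) * (tau s k1 * rho K)))
        ≤ 4 * ((d : ℤ) + 1) * (J * ((2 * q + 4) * (tau s k1 * rho K))) :=
          mul_le_mul_of_nonneg_left h1 (by positivity)
      _ = 4 * ((d : ℤ) + 1) * (J * (2 * q + 4)) * tau s k1 * rho K := by ring
  have hbig : ∀ j ≤ J, (BB s K (A j) (W j) : Set (Cell d)) ⊆ BigBox s K := by
    intro j hj
    apply bb_subset_bigBox
    · have := hAj j hj
      have h2 := hA0 j
      have h3 : (0 : ℤ) ≤ d * A j := by positivity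
      nlinarith
    · have := hWj j hj
      have h2 := hW0 j
      have h3 : (0 : ℤ) ≤ d * W j := by positivity
      nlinarith
  -- the key growth factor
  have hfac : ∀ x u w : ℝ, 0 ≤ u → x ≤ (1 - δ) * u → q * u ≤ (q + 1) * w →
      (1 + δ / 2) * x ≤ w := by
    intro x u w hu h1 h2
    have hq0 : (0 : ℝ) < q := by exact_mod_cast hq1
    have hq3 : 2 ≤ δ * q := by rwa [div_le_iff₀ hδ, mul_comm] at hq2
    have h3 : (1 + δ / 2) * x ≤ (1 + δ / 2) * ((1 - δ) * u) :=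
      mul_le_mul_of_nonneg_left h1 (by linarith)
    have h4 : (q + 1) * ((1 + δ / 2) * ((1 - δ) * u)) ≤ q * u := by
      have h5 : (1 + δ / 2) * (1 - δ) = 1 - δ / 2 - δ ^ 2 / 2 := by ring
      have h6 : ((q : ℝ) + 1) * ((1 + δ / 2) * (1 - δ)) ≤ q := by
        rw [h5]; nlinarith
      calc (q + 1) * ((1 + δ / 2) * ((1 - δ) * u)) = ((q + 1) * ((1 + δ / 2) * (1 - δ))) * u := by
            ring
        _ ≤ q * u := mul_le_mul_of_nonneg_right h6 hu
    have h7 : ((q : ℝ) + 1) * ((1 + δ / 2) * x) ≤ (q + 1) * w :=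
      le_trans (mul_le_mul_of_nonneg_left h3 (by positivity)) (le_trans h4 h2)
    exact le_of_mul_le_mul_left h7 (by positivity)
  -- the iteration
  have iter : ∀ j ≤ J, ∃ Fj : Set (Cell d), Fj ⊆ E j ∧ Fj ⊆ BB s K (A j) (W j) ∧
      (1 + δ / 2) ^ j * (vol d s K / 2) ≤ (Fj.ncard : ℝ) := by
    intro j
    induction j with
    | zero =>
      intro _
      refine ⟨E 0 ∩ Box s K, Set.inter_subset_left, ?_, ?_⟩
      · have e1 : A 0 = 0 := by simp [hAdef]
        have e2 : W 0 = 0 := by simp [hWdef]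
        rw [e1, e2, bb_zero]
        exact Set.inter_subset_right
      · rw [pow_zero, one_mul]
        rw [box_ncard] at h0
        exact h0
    | succ j ih =>
      intro hjJ
      have hj : j ≤ J := by omega
      obtain ⟨Fj, hFE, hFB, hFc⟩ := ih hj
      have hFfin : Fj.Finite :=
        (bb_ncard s K (A j) (W j) (hA0 j) (hW0 j) (hAj j hj) (hWj j hj)).1.subset hFB
      have hmono : ∀ k g, ((Fj ∩ Tile s k g).ncard : ℝ) ≤ ((E j ∩ Tile s k g).ncard : ℝ) := by
        intro k g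
        exact_mod_cast Set.ncard_le_ncard (Set.inter_subset_inter_left _ hFE)
          ((tile_finite s k g).subset Set.inter_subset_right)
      have hlow : ∀ c ∈ Fj, ((Fj ∩ Tile s k1 (TT s k1 c)).ncard : ℝ) <
          (1 - δ) * vol d s k1 := by
        intro c hc
        refine lt_of_le_of_lt (hmono _ _) (hcon j hj (TT s k1 c) ⟨c, rfl, hbig j hj (hFB hc)⟩)
      have hk11 : 1 ≤ k1 := by
        by_contra hz
        have hz' : k1 = 0 := by omega
        have hne : Fj.Nonempty := by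
          rw [← Set.ncard_pos hFfin]
          have : (0 : ℝ) < Fj.ncard :=
            lt_of_lt_of_le (by positivity) hFc
          exact_mod_cast this
        obtain ⟨c, hc⟩ := hne
        have h1 := hlow c hc
        rw [hz', vol_zero] at h1
        have h2 : Fj ∩ Tile s 0 (TT s 0 c) = {c} := by
          ext c'
          simp only [TT_zero, Set.mem_inter_iff, mem_Tile, Set.mem_singleton_iff]
          exact ⟨fun h => h.2, fun h => ⟨h ▸ hc, h⟩⟩
        rw [h2, Set.ncard_singleton] at h1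
        push_cast at h1
        linarith
      obtain ⟨Fam, hFam1, hFam2, hFam3⟩ := stopping s δ hδ hδ1 k1 hk11 Fj hFfin hlow
      set Fam' : Finset (ℕ × Cell d) := Fam.image (fun p => (p.1 + 1, par s p.1 p.2)) with hFam'
      have hU : (⋃ p ∈ Fam', Tile s p.1 p.2) =
          (⋃ p ∈ Fam, Tile s (p.1 + 1) (par s p.1 p.2)) := by
        rw [hFam', Finset.set_biUnion_finset_image]
      have hS : (⋃ p ∈ Fam', Stk s p.1 q p.2) =
          (⋃ p ∈ Fam, Stk s (p.1 + 1) q (par s p.1 p.2)) := by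
        rw [hFam', Finset.set_biUnion_finset_image]
      have hTS := tiles_le_stacks s q Fam'
      rw [hU, hS] at hTS
      refine ⟨⋃ p ∈ Fam, Stk s (p.1 + 1) q (par s p.1 p.2), ?_, ?_, ?_⟩
      · intro c hc
        rw [Set.mem_iUnion₂] at hc
        obtain ⟨p, hp, hcp⟩ := hc
        obtain ⟨h1, ⟨c0, hc0F, hc0T⟩, h3⟩ := hFam1 p hp
        exact hH j (by omega) p.1 h1 p.2 ⟨c0, hc0T, hbig j hj (hFB hc0F)⟩
          (le_trans h3 (hmono _ _)) hcp
      · intro c hc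
        rw [Set.mem_iUnion₂] at hc
        obtain ⟨p, hp, hcp⟩ := hc
        obtain ⟨h1, ⟨c0, hc0F, hc0T⟩, h3⟩ := hFam1 p hp
        have h4 := (bb_step s K k1 (p.1 + 1) q h1 hk1K (A j) (W j) (hA0 j) (hW0 j)
          (par s p.1 p.2) c0 (Tile_subset_par s p.1 p.2 hc0T) (hFB hc0F)).2 hcp
        have e1 : A (j + 1) = A j + (q + 1) * tau s k1 := by
          simp only [hAdef]; push_cast; ring
        have e2 : W (j + 1) = W j + (2 * q + 4) * (tau s k1 * rho K) := by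
          simp only [hWdef]; push_cast; ring
        rw [e1, e2]; exact h4
      · rw [pow_succ, mul_comm ((1 + δ / 2) ^ j), mul_assoc]
        refine le_trans (mul_le_mul_of_nonneg_left hFc (by linarith)) ?_
        refine hfac _ _ _ (Nat.cast_nonneg _) hFam3 ?_
        exact_mod_cast hTS
  obtain ⟨FJ, hJE, hJB, hJc⟩ := iter J le_rfl
  obtain ⟨hfin, hcard⟩ := bb_ncard s K (A J) (W J) (hA0 J) (hW0 J) (hAj J le_rfl) (hWj J le_rfl)
  have h1 : (FJ.ncard : ℝ) ≤ 2 * vol d s K := by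
    exact_mod_cast le_trans (Set.ncard_le_ncard hJB hfin) hcard
  have h2 : (1 + δ / 2) ^ J * ((vol d s K : ℝ) / 2) ≤ 2 * vol d s K := le_trans hJc h1
  have h3 : 4 * ((vol d s K : ℝ) / 2) < (1 + δ / 2) ^ J * ((vol d s K : ℝ) / 2) :=
    mul_lt_mul_of_pos_right hJ2 (by positivity)
  linarith

end KD.III
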