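import Mathlib

/-! KD project (MP_019250_an), Part III: kinetic tiles and covering.  Definitions.
Paper proof: /team-store/KD_part3.md.  All quantities are integers; everything is
componentwise on `Fin d → ℤ`; `/` and `%` are `Int` floor division and `emod`. -/

namespace KD.III

/-- cells `(t, x, v)`, also indices `(n, m, l)` of tiles -/
abbrev Cell (d : ℕ) : Type := ℤ × (Fin d → ℤ) × (Fin d → ℤ)

/-- time ratio between level `k+1` and level `k`: one of `1, 2, 4` -/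
noncomputable def ek (s : ℝ) (k : ℕ) : ℤ := 2 ^ (⌊2 * s * (k + 1 : ℕ)⌋₊ - ⌊2 * s * k⌋₊)

/-- `τ_k = 2^⌊2sk⌋` (see `tau_eq`) -/
noncomputable def tau (s : ℝ) : ℕ → ℤ
  | 0 => 1
  | k + 1 => ek s k * tau s k

/-- `ρ_k = 2^k` -/
def rho (k : ℕ) : ℤ := 2 ^ k

/-- `X_k = τ_k ρ_k` -/
noncomputable def XX (s : ℝ) (k : ℕ) : ℤ := tau s k * rho k

/-- parent map `P_k`: index at level `k` to index at level `k+1` -/
noncomputable def par {d : ℕ} (s : ℝ) (k : ℕ) (g : Cell d) : Cell d :=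
  (g.1 / ek s k,
    fun i => (g.2.1 i - 2 * (g.1 % ek s k) * (g.2.2 i / 2)) / (2 * ek s k),
    fun i => g.2.2 i / 2)

/-- `T_k`: the index of the level `k` tile of a cell -/
noncomputable def TT {d : ℕ} (s : ℝ) : ℕ → Cell d → Cell d
  | 0, c => c
  | k + 1, c => par s k (TT s k c)

/-- the level `k` tile with index `g` -/
def Tile {d : ℕ} (s : ℝ) (k : ℕ) (g : Cell d) : Set (Cell d) := {c | TT s k c = g}

/-- number of cells of a level `k` tile -/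
noncomputable def vol (d : ℕ) (s : ℝ) (k : ℕ) : ℕ :=
  (tau s k * XX s k ^ d * rho k ^ d).toNat

/-- the stack over the level `k` tile with index `g`, of height `q τ_k` -/
def Stk {d : ℕ} (s : ℝ) (k q : ℕ) (g : Cell d) : Set (Cell d) :=
  {c | ∃ a : ℕ, ((c.1 - a, fun i => c.2.1 i - a * c.2.2 i, c.2.2) : Cell d) ∈ Tile s k g ∧
    tau s k * (g.1 + 1) ≤ c.1 ∧ c.1 < tau s k * (g.1 + 1 + q)}

/-- `Box_K` -/
def Box {d : ℕ} (s : ℝ) (K : ℕ) : Set (Cell d) :=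
  {c | (0 ≤ c.1 ∧ c.1 < tau s K) ∧ (∀ i, 0 ≤ c.2.1 i ∧ c.2.1 i < XX s K) ∧
    ∀ i, 0 ≤ c.2.2 i ∧ c.2.2 i < rho K}

/-- `BigBox_K` -/
def BigBox {d : ℕ} (s : ℝ) (K : ℕ) : Set (Cell d) :=
  {c | (0 ≤ c.1 ∧ c.1 < 2 * tau s K) ∧ (∀ i, -XX s K ≤ c.2.1 i ∧ c.2.1 i < 2 * XX s K) ∧
    ∀ i, 0 ≤ c.2.2 i ∧ c.2.2 i < rho K}

/-- `BB s K A W`: the box `0 ≤ t < τ_K + A`, `-W ≤ x_i < X_K + W`, `0 ≤ v_i < ρ_K` -/
def BB {d : ℕ} (s : ℝ) (K : ℕ) (A W : ℤ) : Set (Cell d) :=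
  {c | (0 ≤ c.1 ∧ c.1 < tau s K + A) ∧ (∀ i, -W ≤ c.2.1 i ∧ c.2.1 i < XX s K + W) ∧
    ∀ i, 0 ≤ c.2.2 i ∧ c.2.2 i < rho K}

/-! ### basic facts -/

lemma ek_pos (s : ℝ) (k : ℕ) : 0 < ek s k := by unfold ek; positivity

lemma tau_zero (s : ℝ) : tau s 0 = 1 := rfl
lemma tau_succ (s : ℝ) (k : ℕ) : tau s (k + 1) = ek s k * tau s k := rfl

lemma tau_pos (s : ℝ) (k : ℕ) : 0 < tau s k := by
  induction k with
  | zero => simp [tau_zero]
  | succ k ih => rw [tau_succ]; exact mul_pos (ek_pos s k) ih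

lemma rho_pos (k : ℕ) : 0 < rho k := by unfold rho; positivity
lemma rho_succ (k : ℕ) : rho (k + 1) = 2 * rho k := by unfold rho; ring

lemma XX_pos (s : ℝ) (k : ℕ) : 0 < XX s k := mul_pos (tau_pos s k) (rho_pos k)
lemma XX_succ (s : ℝ) (k : ℕ) : XX s (k + 1) = 2 * ek s k * XX s k := by
  unfold XX; rw [tau_succ, rho_succ]; ring

lemma TT_zero {d : ℕ} (s : ℝ) (c : Cell d) : TT s 0 c = c := rfl
lemma TT_succ {d : ℕ} (s : ℝ) (k : ℕ) (c : Cell d) : TT s (k + 1) c = par s k (TT s k c) := rfl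

lemma mem_Tile {d : ℕ} (s : ℝ) (k : ℕ) (g c : Cell d) : c ∈ Tile s k g ↔ TT s k c = g := Iff.rfl

/-- (T5) -/
lemma Tile_subset_par {d : ℕ} (s : ℝ) (k : ℕ) (g : Cell d) :
    Tile s k g ⊆ Tile s (k + 1) (par s k g) := by
  intro c hc
  rw [mem_Tile] at hc ⊢
  rw [TT_succ, hc]

lemma tau_eq {s : ℝ} (hs : 0 ≤ s) (k : ℕ) : tau s k = 2 ^ ⌊2 * s * k⌋₊ := by
  induction k with
  | zero => simp [tau_zero]
  | succ k ih =>
    rw [tau_succ, ih, ek, ← pow_add]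
    congr 1
    apply Nat.sub_add_cancel
    apply Nat.floor_mono
    push_cast
    nlinarith

lemma vol_cast (d : ℕ) (s : ℝ) (k : ℕ) :
    ((vol d s k : ℕ) : ℤ) = tau s k * XX s k ^ d * rho k ^ d := by
  unfold vol
  apply Int.toNat_of_nonneg
  have h1 := tau_pos s k
  have h2 := XX_pos s k
  have h3 := rho_pos k
  positivity

lemma vol_pos (d : ℕ) (s : ℝ) (k : ℕ) : 0 < vol d s k := by
  have h : (0 : ℤ) < (vol d s k : ℕ) := by
    rw [vol_cast]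
    have h1 := tau_pos s k
    have h2 := XX_pos s k
    have h3 := rho_pos k
    positivity
  exact_mod_cast h

end KD.III
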