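import Pool.Agent.Helper57.KD3.Defs

/-! KD project Part III: geometry of tiles and stacks (T3), (T4), (T9). -/

namespace KD.III

variable {d : ℕ}

lemma XX_eq (s : ℝ) (k : ℕ) : XX s k = tau s k * rho k := rfl

lemma ek_one_le (s : ℝ) (k : ℕ) : 1 ≤ ek s k := ek_pos s k

lemma rho_mono {j k : ℕ} (h : j ≤ k) : rho j ≤ rho k := by
  unfold rho; exact pow_le_pow_right₀ (by norm_num) h

lemma tau_mono (s : ℝ) {j k : ℕ} (h : j ≤ k) : tau s j ≤ tau s k := by
  induction k, h using Nat.le_induction with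
  | base => exact le_rfl
  | succ k _ ih =>
    rw [tau_succ]
    have := ek_one_le s k
    have h2 := tau_pos s k
    nlinarith

lemma slack (s : ℝ) (c : Cell d) : ∀ k : ℕ,
    (0 ≤ c.1 - tau s k * (TT s k c).1 ∧ c.1 - tau s k * (TT s k c).1 < tau s k) ∧
    ∀ i, (0 ≤ c.2.2 i - rho k * (TT s k c).2.2 i ∧
        c.2.2 i - rho k * (TT s k c).2.2 i < rho k) ∧
      ∀ j ≤ k, c.2.2 i - rho k * (TT s k c).2.2 i < rho j →
        ∃ σ : ℤ, 0 ≤ σ ∧ σ ≤ XX s j ∧
          0 ≤ c.2.1 i - XX s k * (TT s k c).2.1 i -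
            (c.1 - tau s k * (TT s k c).1) * (rho k * (TT s k c).2.2 i) - σ ∧
          c.2.1 i - XX s k * (TT s k c).2.1 i -
            (c.1 - tau s k * (TT s k c).1) * (rho k * (TT s k c).2.2 i) - σ < XX s k := by
  intro k
  induction k with
  | zero =>
    refine ⟨?_, ?_⟩
    · simp [tau_zero, TT_zero]
    · intro i
      refine ⟨?_, ?_⟩
      · simp [rho, TT_zero]
      · intro j hj _
        refine ⟨0, le_rfl, (XX_pos s j).le, ?_, ?_⟩ <;> simp [XX, tau_zero, rho, TT_zero]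
  | succ k ih =>
    obtain ⟨⟨ht0, ht1⟩, hv⟩ := ih
    set g := TT s k c with hg
    have hT : TT s (k + 1) c = par s k g := rfl
    have he : 0 < ek s k := ek_pos s k
    have hτ := tau_pos s k
    have hρ := rho_pos k
    have hX := XX_pos s k
    have ha0 : 0 ≤ g.1 % ek s k := Int.emod_nonneg _ he.ne'
    have ha1 : g.1 % ek s k < ek s k := Int.emod_lt_of_pos _ he
    have han : ek s k * (g.1 / ek s k) + g.1 % ek s k = g.1 := Int.mul_ediv_add_emod _ _
    have hT1 : (TT s (k + 1) c).1 = g.1 / ek s k := rfl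
    set a := g.1 % ek s k with had
    set n' := g.1 / ek s k with hn'
    have key : c.1 - tau s (k + 1) * n' = (c.1 - tau s k * g.1) + tau s k * a := by
      rw [tau_succ, ← han]; ring
    refine ⟨?_, ?_⟩
    · rw [hT1, key, tau_succ]
      constructor
      · positivity
      · nlinarith only [ht1, ha1, ht0]
    · intro i
      obtain ⟨⟨hv0, hv1⟩, hσ⟩ := hv i
      have hc0 : 0 ≤ g.2.2 i % 2 := Int.emod_nonneg _ (by norm_num)
      have hc1 : g.2.2 i % 2 < 2 := Int.emod_lt_of_pos _ (by norm_num)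
      have hcn : 2 * (g.2.2 i / 2) + g.2.2 i % 2 = g.2.2 i := Int.mul_ediv_add_emod _ _
      have hT3 : (TT s (k + 1) c).2.2 i = g.2.2 i / 2 := rfl
      have hT2 : (TT s (k + 1) c).2.1 i = (g.2.1 i - 2 * a * (g.2.2 i / 2)) / (2 * ek s k) := rfl
      set l' := g.2.2 i / 2 with hl'
      set cc := g.2.2 i % 2 with hcc
      have he2 : 0 < 2 * ek s k := by positivity
      have hb0 : 0 ≤ (g.2.1 i - 2 * a * l') % (2 * ek s k) := Int.emod_nonneg _ he2.ne'
      have hb1 : (g.2.1 i - 2 * a * l') % (2 * ek s k) < 2 * ek s k := Int.emod_lt_of_pos _ he2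
      have hbn : 2 * ek s k * ((g.2.1 i - 2 * a * l') / (2 * ek s k)) +
        (g.2.1 i - 2 * a * l') % (2 * ek s k) = g.2.1 i - 2 * a * l' := Int.mul_ediv_add_emod _ _
      set b := (g.2.1 i - 2 * a * l') % (2 * ek s k) with hb
      set m' := (g.2.1 i - 2 * a * l') / (2 * ek s k) with hm'
      have hvkey : c.2.2 i - rho (k + 1) * l' = (c.2.2 i - rho k * g.2.2 i) + rho k * cc := by
        rw [rho_succ, ← hcn]; ring
      have hxkey : c.2.1 i - XX s (k + 1) * m' - (c.1 - tau s (k + 1) * n') * (rho (k + 1) * l') =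
          (c.2.1 i - XX s k * g.2.1 i - (c.1 - tau s k * g.1) * (rho k * g.2.2 i)) + XX s k * b +
          (c.1 - tau s k * g.1) * (rho k * cc) := by
        have e1 : XX s (k + 1) * m' = XX s k * (g.2.1 i - 2 * a * l' - b) := by
          rw [XX_succ, ← hbn]; ring
        rw [e1, key, rho_succ, XX_eq]
        have e2 : cc = g.2.2 i - 2 * l' := by rw [← hcn]; ring
        rw [e2]; ring
      refine ⟨?_, ?_⟩
      · rw [hT3, hvkey, rho_succ]
        constructor
        · positivity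
        · nlinarith only [hv1, hc1, hρ]
      · intro j hj hlt
        rw [hT3, hvkey] at hlt
        rw [hT1, hT2, hT3, hxkey]
        rcases Nat.lt_or_ge j (k + 1) with hjk | hjk
        · have hjk' : j ≤ k := Nat.lt_succ_iff.mp hjk
          have hrj := rho_mono hjk'
          have hcz : cc = 0 := by
            by_contra hne
            have : 1 ≤ cc := by omega
            nlinarith only [hv0, hlt, hrj, this, hρ]
          have hlt' : c.2.2 i - rho k * g.2.2 i < rho j := by rw [hcz] at hlt; simpa using hlt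
          obtain ⟨σ, h0, h1, h2, h3⟩ := hσ j hjk' hlt'
          refine ⟨σ, h0, h1, ?_, ?_⟩
          · rw [hcz]
            have : 0 ≤ XX s k * b := by positivity
            linarith
          · rw [hcz, XX_succ]
            have : XX s k * b ≤ XX s k * (2 * ek s k - 1) :=
              mul_le_mul_of_nonneg_left (by omega) hX.le
            nlinarith only [h3, this]
        · have hjk' : j = k + 1 := le_antisymm hj hjk
          subst hjk'
          obtain ⟨σ, h0, h1, h2, h3⟩ := hσ k le_rfl hv1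
          have hcc0 : 0 ≤ (c.1 - tau s k * g.1) * (rho k * cc) := by positivity
          have hcc1 : (c.1 - tau s k * g.1) * (rho k * cc) ≤ XX s k := by
            have h5 : rho k * cc ≤ rho k * 1 := mul_le_mul_of_nonneg_left (by omega) hρ.le
            calc (c.1 - tau s k * g.1) * (rho k * cc) ≤ tau s k * (rho k * cc) :=
                  mul_le_mul_of_nonneg_right ht1.le (by positivity)
              _ ≤ tau s k * (rho k * 1) := mul_le_mul_of_nonneg_left h5 hτ.le
              _ = XX s k := by rw [XX_eq]; ring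
          refine ⟨σ + (c.1 - tau s k * g.1) * (rho k * cc), by positivity, ?_, ?_, ?_⟩
          · rw [XX_succ]
            have : XX s k ≤ ek s k * XX s k := by nlinarith only [he, hX, ek_one_le s k]
            nlinarith only [h1, hcc1, this]
          · have : 0 ≤ XX s k * b := by positivity
            linarith
          · rw [XX_succ]
            have : XX s k * b ≤ XX s k * (2 * ek s k - 1) :=
              mul_le_mul_of_nonneg_left (by omega) hX.le
            nlinarith only [h3, this]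

/-- (T3) a tile is contained in a slanted box -/
theorem tile_geom (s : ℝ) (k : ℕ) (g c : Cell d) (hc : c ∈ Tile s k g) :
    (0 ≤ c.1 - tau s k * g.1 ∧ c.1 - tau s k * g.1 < tau s k) ∧
    ∀ i, (0 ≤ c.2.2 i - rho k * g.2.2 i ∧ c.2.2 i - rho k * g.2.2 i < rho k) ∧
      0 ≤ c.2.1 i - XX s k * g.2.1 i - (c.1 - tau s k * g.1) * (rho k * g.2.2 i) ∧
      c.2.1 i - XX s k * g.2.1 i - (c.1 - tau s k * g.1) * (rho k * g.2.2 i) < 2 * XX s k := by
  obtain rfl : TT s k c = g := hc
  obtain ⟨ht, hv⟩ := slack s c k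
  refine ⟨ht, fun i => ?_⟩
  obtain ⟨hv1, hσ⟩ := hv i
  obtain ⟨σ, h0, h1, h2, h3⟩ := hσ k le_rfl hv1.2
  exact ⟨hv1, by linarith, by linarith⟩

/-- uniqueness of floor division -/
lemma floor_unique {τ t n n' : ℤ} (hτ : 0 < τ) (h0 : 0 ≤ t - τ * n) (h1 : t - τ * n < τ)
    (h0' : 0 ≤ t - τ * n') (h1' : t - τ * n' < τ) : n = n' := by
  rcases lt_trichotomy n n' with h | h | h
  · exfalso
    have : τ * (n + 1) ≤ τ * n' := mul_le_mul_of_nonneg_left h hτ.le
    linarith
  · exact h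
  · exfalso
    have : τ * (n' + 1) ≤ τ * n := mul_le_mul_of_nonneg_left h hτ.le
    linarith

/-- (T4) a tile contains its core -/
theorem tile_core (s : ℝ) (k q : ℕ) (_hq : q ≤ k) (g c : Cell d)
    (ht0 : 0 ≤ c.1 - tau s k * g.1) (ht1 : c.1 - tau s k * g.1 < tau s k)
    (hv0 : ∀ i, 0 ≤ c.2.2 i - rho k * g.2.2 i)
    (hv1 : ∀ i, c.2.2 i - rho k * g.2.2 i < rho (k - q))
    (hx0 : ∀ i, XX s (k - q) ≤
      c.2.1 i - XX s k * g.2.1 i - (c.1 - tau s k * g.1) * (rho k * g.2.2 i))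
    (hx1 : ∀ i,
      c.2.1 i - XX s k * g.2.1 i - (c.1 - tau s k * g.1) * (rho k * g.2.2 i) < XX s k) :
    c ∈ Tile s k g := by
  rw [mem_Tile]
  obtain ⟨ht, hv⟩ := slack s c k
  have hqk : k - q ≤ k := Nat.sub_le _ _
  have hn : (TT s k c).1 = g.1 := floor_unique (tau_pos s k) ht.1 ht.2 ht0 ht1
  have hl : ∀ i, (TT s k c).2.2 i = g.2.2 i := fun i =>
    floor_unique (rho_pos k) (hv i).1.1 (hv i).1.2 (hv0 i)
      (lt_of_lt_of_le (hv1 i) (rho_mono hqk))
  have hm : ∀ i, (TT s k c).2.1 i = g.2.1 i := by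
    intro i
    obtain ⟨σ, h0, h1, h2, h3⟩ := (hv i).2 (k - q) hqk (by rw [hl i]; exact hv1 i)
    rw [hn, hl i] at h2 h3
    have hX := XX_pos s k
    have hx0 := hx0 i
    have hx1 := hx1 i
    rcases lt_trichotomy ((TT s k c).2.1 i) (g.2.1 i) with h | h | h
    · exfalso
      have : XX s k * ((TT s k c).2.1 i + 1) ≤ XX s k * g.2.1 i :=
        mul_le_mul_of_nonneg_left h hX.le
      linarith
    · exact h
    · exfalso
      have : XX s k * (g.2.1 i + 1) ≤ XX s k * (TT s k c).2.1 i :=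
        mul_le_mul_of_nonneg_left h hX.le
      linarith
  exact Prod.ext hn (Prod.ext (funext hm) (funext hl))

/-- geometry of the stack -/
theorem stk_geom (s : ℝ) (k q : ℕ) (g c : Cell d) (hc : c ∈ Stk s k q g) :
    (tau s k * (g.1 + 1) ≤ c.1 ∧ c.1 < tau s k * (g.1 + 1 + q)) ∧
    ∀ i, (0 ≤ c.2.2 i - rho k * g.2.2 i ∧ c.2.2 i - rho k * g.2.2 i < rho k) ∧
      0 ≤ c.2.1 i - XX s k * g.2.1 i - (c.1 - tau s k * g.1) * (rho k * g.2.2 i) ∧
      c.2.1 i - XX s k * g.2.1 i - (c.1 - tau s k * g.1) * (rho k * g.2.2 i) <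
        (q + 3) * XX s k := by
  obtain ⟨a, ha, h1, h2⟩ := hc
  obtain ⟨ht, hv⟩ := tile_geom s k g _ ha
  simp only at ht hv
  refine ⟨⟨h1, h2⟩, fun i => ?_⟩
  obtain ⟨hv1, hx0, hx1⟩ := hv i
  refine ⟨hv1, ?_, ?_⟩
  · have e : c.2.1 i - XX s k * g.2.1 i - (c.1 - tau s k * g.1) * (rho k * g.2.2 i) =
      (c.2.1 i - a * c.2.2 i - XX s k * g.2.1 i - (c.1 - a - tau s k * g.1) * (rho k * g.2.2 i))
      + a * (c.2.2 i - rho k * g.2.2 i) := by ring
    rw [e]
    have : 0 ≤ (a : ℤ) * (c.2.2 i - rho k * g.2.2 i) := mul_nonneg (by positivity) hv1.1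
    linarith
  · have e : c.2.1 i - XX s k * g.2.1 i - (c.1 - tau s k * g.1) * (rho k * g.2.2 i) =
      (c.2.1 i - a * c.2.2 i - XX s k * g.2.1 i - (c.1 - a - tau s k * g.1) * (rho k * g.2.2 i))
      + a * (c.2.2 i - rho k * g.2.2 i) := by ring
    rw [e]
    have ha' : (a : ℤ) ≤ (q + 1) * tau s k := by
      have : (a : ℤ) ≤ c.1 - tau s k * g.1 := by linarith [ht.1]
      nlinarith only [h2, ht]
    have h3 : (a : ℤ) * (c.2.2 i - rho k * g.2.2 i) ≤ ((q + 1) * tau s k) * rho k :=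
      mul_le_mul ha' hv1.2.le hv1.1 (by have := tau_pos s k; positivity)
    have h4 : ((q : ℤ) + 1) * tau s k * rho k = (q + 1) * XX s k := by rw [XX_eq]; ring
    nlinarith only [hx1, h3, h4]

lemma bb_step_aux (s : ℝ) (K k1 k q : ℕ) (hk : k ≤ k1) (hk1 : k1 ≤ K) (A W : ℤ)
    (g c0 c : Cell d) (hc0 : c0 ∈ Tile s k g) (hB : c0 ∈ BB s K A W)
    (ht0 : tau s k * g.1 ≤ c.1) (ht1 : c.1 < tau s k * (g.1 + 1 + q))
    (hv : ∀ i, 0 ≤ c.2.2 i - rho k * g.2.2 i ∧ c.2.2 i - rho k * g.2.2 i < rho k)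
    (hx : ∀ i, 0 ≤ c.2.1 i - XX s k * g.2.1 i - (c.1 - tau s k * g.1) * (rho k * g.2.2 i) ∧
      c.2.1 i - XX s k * g.2.1 i - (c.1 - tau s k * g.1) * (rho k * g.2.2 i) <
        (q + 3) * XX s k) :
    c ∈ (BB s K (A + (q + 1) * tau s k1) (W + (2 * q + 4) * (tau s k1 * rho K)) :
      Set (Cell d)) := by
  obtain ⟨⟨g0, g1⟩, gv⟩ := tile_geom s k g c0 hc0
  obtain ⟨⟨b0, b1⟩, bx, bv⟩ := hB
  have hτ := tau_pos s k
  have hρ := rho_pos k
  have hX := XX_pos s k
  have hτm := tau_mono s hk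
  have hρK := rho_mono (le_trans hk hk1)
  have hn : 0 ≤ g.1 := by
    by_contra h
    have : tau s k * g.1 ≤ tau s k * (-1) := mul_le_mul_of_nonneg_left (by omega) hτ.le
    linarith
  have hn0 : 0 ≤ tau s k * g.1 := mul_nonneg hτ.le hn
  have hρKk : rho K = rho k * 2 ^ (K - k) := by
    unfold rho; rw [← pow_add]; congr 1; omega
  have hl : ∀ i, 0 ≤ rho k * g.2.2 i ∧ rho k * g.2.2 i + rho k ≤ rho K := by
    intro i
    obtain ⟨⟨w0, w1⟩, _⟩ := gv i
    obtain ⟨z0, z1⟩ := bv i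
    constructor
    · apply mul_nonneg hρ.le
      by_contra h
      have : rho k * g.2.2 i ≤ rho k * (-1) := mul_le_mul_of_nonneg_left (by omega) hρ.le
      linarith
    · have h1 : rho k * g.2.2 i < rho k * 2 ^ (K - k) := by rw [← hρKk]; linarith
      have h2 : g.2.2 i < 2 ^ (K - k) := lt_of_mul_lt_mul_left h1 hρ.le
      have h3 : rho k * (g.2.2 i + 1) ≤ rho k * 2 ^ (K - k) :=
        mul_le_mul_of_nonneg_left h2 hρ.le
      rw [hρKk]; linarith
  have hq0 : (0 : ℤ) ≤ q := by positivity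
  refine ⟨⟨by linarith, ?_⟩, fun i => ?_, fun i => ?_⟩
  · have h1 : ((q : ℤ) + 1) * tau s k ≤ (q + 1) * tau s k1 :=
      mul_le_mul_of_nonneg_left hτm (by positivity)
    have h2 : tau s k * (g.1 + 1 + q) = tau s k * g.1 + (q + 1) * tau s k := by ring
    linarith
  · obtain ⟨h1, h2⟩ := hx i
    obtain ⟨_, h3, h4⟩ := gv i
    obtain ⟨l0, l1⟩ := hl i
    obtain ⟨x0, x1⟩ := bx i
    set w := rho k * g.2.2 i with hw
    have e : c.2.1 i - c0.2.1 i = (c.1 - c0.1) * w +
      ((c.2.1 i - XX s k * g.2.1 i - (c.1 - tau s k * g.1) * w) -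
       (c0.2.1 i - XX s k * g.2.1 i - (c0.1 - tau s k * g.1) * w)) := by ring
    set u := c.2.1 i - XX s k * g.2.1 i - (c.1 - tau s k * g.1) * w with hu
    set u0 := c0.2.1 i - XX s k * g.2.1 i - (c0.1 - tau s k * g.1) * w with hu0
    have hwK : w ≤ rho K := by linarith
    have hXK : XX s k ≤ tau s k * rho K := by
      rw [XX_eq]; exact mul_le_mul_of_nonneg_left hρK hτ.le
    have hTK : tau s k * rho K ≤ tau s k1 * rho K :=
      mul_le_mul_of_nonneg_right hτm (rho_pos K).le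
    have hup : (c.1 - c0.1) * w ≤ ((q + 1) * tau s k) * rho K := by
      have h5 : c.1 - c0.1 ≤ (q + 1) * tau s k := by
        have h2 : tau s k * (g.1 + 1 + q) = tau s k * g.1 + (q + 1) * tau s k := by ring
        linarith
      calc (c.1 - c0.1) * w ≤ ((q + 1) * tau s k) * w := mul_le_mul_of_nonneg_right h5 l0
        _ ≤ ((q + 1) * tau s k) * rho K := mul_le_mul_of_nonneg_left hwK (by positivity)
    have hlo : -(tau s k * rho K) ≤ (c.1 - c0.1) * w := by
      have h5 : -tau s k ≤ c.1 - c0.1 := by linarith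
      calc -(tau s k * rho K) ≤ -(tau s k * w) := by
            have := mul_le_mul_of_nonneg_left hwK hτ.le
            linarith
        _ = (-tau s k) * w := by ring
        _ ≤ (c.1 - c0.1) * w := mul_le_mul_of_nonneg_right h5 l0
    have h6 : ((q : ℤ) + 3) * XX s k ≤ (q + 3) * (tau s k1 * rho K) :=
      mul_le_mul_of_nonneg_left (le_trans hXK hTK) (by positivity)
    have h7 : ((q : ℤ) + 1) * tau s k * rho K ≤ (q + 1) * (tau s k1 * rho K) := by
      rw [mul_assoc]; exact mul_le_mul_of_nonneg_left hTK (by positivity)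
    have h8 : 0 ≤ tau s k1 * rho K := by
      have := tau_pos s k1
      have := rho_pos K
      positivity
    have h9 : 0 ≤ (q : ℤ) * (tau s k1 * rho K) := mul_nonneg hq0 h8
    constructor
    · linarith
    · linarith
  · obtain ⟨h1, h2⟩ := hv i
    obtain ⟨l0, l1⟩ := hl i
    constructor
    · linarith
    · linarith

/-- a tile and a stack based at a cell of the container stay in a larger container -/
theorem bb_step (s : ℝ) (K k1 k q : ℕ) (hk : k ≤ k1) (hk1 : k1 ≤ K) (A W : ℤ)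
    (_hA : 0 ≤ A) (_hW : 0 ≤ W) (g c0 : Cell d) (hc0 : c0 ∈ Tile s k g) (hB : c0 ∈ BB s K A W) :
    Tile s k g ⊆ BB s K (A + (q + 1) * tau s k1) (W + (2 * q + 4) * (tau s k1 * rho K)) ∧
    Stk s k q g ⊆ BB s K (A + (q + 1) * tau s k1) (W + (2 * q + 4) * (tau s k1 * rho K)) := by
  have hτ := tau_pos s k
  constructor
  · intro c hc
    obtain ⟨⟨g0, g1⟩, gv⟩ := tile_geom s k g c hc
    refine bb_step_aux s K k1 k q hk hk1 A W g c0 c hc0 hB (by linarith) ?_
      (fun i => (gv i).1) (fun i => ⟨(gv i).2.1, ?_⟩)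
    · have : 0 ≤ tau s k * (q : ℤ) := by positivity
      have h2 : tau s k * (g.1 + 1 + q) = tau s k * g.1 + tau s k + tau s k * q := by ring
      linarith
    · have h1 := (gv i).2.2
      have hX := XX_pos s k
      have : 0 ≤ (q : ℤ) * XX s k := by positivity
      linarith
  · intro c hc
    obtain ⟨⟨g0, g1⟩, gv⟩ := stk_geom s k q g c hc
    exact bb_step_aux s K k1 k q hk hk1 A W g c0 c hc0 hB (by linarith) g1
      (fun i => (gv i).1) (fun i => (gv i).2)

end KD.III
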