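import Pool.Agent.Helper57.KD3.Cov
import Pool.Agent.Helper57.KD3.Core0

/-! KD project Part III: everything is proved; this file only re-exports. -/
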