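import Pool.Agent.Helper57.KD3.Count
import Pool.Agent.Helper57.KD3.Geom

/-! KD project Part III: (T8) stopping. -/

namespace KD.III

variable {d : ℕ}

lemma vol_zero (d : ℕ) (s : ℝ) : vol d s 0 = 1 := by
  simp [vol, tau_zero, XX, rho]

lemma TT_eq_of_le {s : ℝ} {c c' : Cell d} {j k : ℕ} (h : j ≤ k) (he : TT s j c = TT s j c') :
    TT s k c = TT s k c' := by
  induction k, h using Nat.le_induction with
  | base => exact he
  | succ k _ ih => rw [TT_succ, TT_succ, ih]

/-- (T8) stopping -/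
theorem stopping (s : ℝ) (δ : ℝ) (hδ : 0 < δ) (_hδ1 : δ < 1) (k1 : ℕ) (hk1 : 1 ≤ k1)
    (E : Set (Cell d)) (hE : E.Finite)
    (hlow : ∀ c ∈ E, ((E ∩ Tile s k1 (TT s k1 c)).ncard : ℝ) < (1 - δ) * vol d s k1) :
    ∃ F : Finset (ℕ × Cell d),
      (∀ p ∈ F, p.1 < k1 ∧ (E ∩ Tile s p.1 p.2).Nonempty ∧
        (1 - δ) * vol d s p.1 ≤ ((E ∩ Tile s p.1 p.2).ncard : ℝ)) ∧
      E ⊆ (⋃ p ∈ F, Tile s (p.1 + 1) (par s p.1 p.2)) ∧
      (E.ncard : ℝ) ≤ (1 - δ) * (⋃ p ∈ F, Tile s (p.1 + 1) (par s p.1 p.2)).ncard := by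
  classical
  set P : Cell d → ℕ → Prop := fun c k =>
    (1 - δ) * vol d s k ≤ ((E ∩ Tile s k (TT s k c)).ncard : ℝ) with hP
  have hP0 : ∀ c ∈ E, P c 0 := by
    intro c hc
    have h1 : E ∩ Tile s 0 (TT s 0 c) = {c} := by
      ext c'
      simp only [TT_zero, Set.mem_inter_iff, mem_Tile, Set.mem_singleton_iff]
      exact ⟨fun h => h.2, fun h => ⟨h ▸ hc, h⟩⟩
    simp only [hP]
    rw [h1, Set.ncard_singleton, vol_zero]
    push_cast
    linarith
  set kk : Cell d → ℕ := fun c => Nat.findGreatest (P c) (k1 - 1) with hkk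
  have hkk1 : ∀ c, kk c < k1 := fun c => by
    have : kk c ≤ k1 - 1 := Nat.findGreatest_le _
    omega
  have hPkk : ∀ c ∈ E, P c (kk c) := fun c hc => by
    have := Nat.findGreatest_spec (P := P c) (n := k1 - 1) (Nat.zero_le _) (hP0 c hc)
    exact this
  have hpar : ∀ c ∈ E, ((E ∩ Tile s (kk c + 1) (TT s (kk c + 1) c)).ncard : ℝ) <
      (1 - δ) * vol d s (kk c + 1) := by
    intro c hc
    rcases Nat.lt_or_ge (kk c + 1) k1 with h | h
    · have := Nat.findGreatest_is_greatest (P := P c) (n := k1 - 1) (k := kk c + 1)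
        (Nat.lt_succ_self _) (by omega)
      simp only [hP] at this
      exact not_le.mp this
    · have : kk c + 1 = k1 := by have := hkk1 c; omega
      rw [this]; exact hlow c hc
  set F : Finset (ℕ × Cell d) := hE.toFinset.image (fun c => (kk c, TT s (kk c) c)) with hF
  have hFm : ∀ p, p ∈ F ↔ ∃ c ∈ E, (kk c, TT s (kk c) c) = p := by intro p; simp [hF]
  have hsub : E ⊆ (⋃ p ∈ F, Tile s (p.1 + 1) (par s p.1 p.2)) := by
    intro c hc
    rw [Set.mem_iUnion₂]
    exact ⟨(kk c, TT s (kk c) c), (hFm _).mpr ⟨c, hc, rfl⟩, rfl⟩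
  refine ⟨F, ?_, hsub, ?_⟩
  · intro p hp
    obtain ⟨c, hc, rfl⟩ := (hFm p).mp hp
    exact ⟨hkk1 c, ⟨c, hc, rfl⟩, hPkk c hc⟩
  · set U : Set (Cell d) := (⋃ p ∈ F, Tile s (p.1 + 1) (par s p.1 p.2)) with hU
    have hUfin : U.Finite :=
      Set.Finite.biUnion F.finite_toSet (fun p _ => tile_finite s _ _)
    set R : Cell d → ℕ → Prop := fun c j => ∃ p ∈ F, p.1 + 1 = j ∧ TT s j c = par s p.1 p.2
      with hR
    set κ : Cell d → ℕ := fun c => Nat.findGreatest (R c) k1 with hκ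
    have hUm : ∀ c, c ∈ U ↔ ∃ j ≤ k1, R c j := by
      intro c
      rw [hU, Set.mem_iUnion₂]
      constructor
      · rintro ⟨p, hp, hc⟩
        obtain ⟨c', hc', hpe⟩ := (hFm p).mp hp
        refine ⟨p.1 + 1, ?_, p, hp, rfl, hc⟩
        have := hkk1 c'
        rw [← hpe]; simp only; omega
      · rintro ⟨j, hj, p, hp, rfl, hc⟩
        exact ⟨p, hp, hc⟩
    have hRκ : ∀ c ∈ U, R c (κ c) := by
      intro c hc
      obtain ⟨j, hj, hRj⟩ := (hUm c).mp hc
      exact Nat.findGreatest_spec (P := R c) hj hRj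
    set Φ : Cell d → ℕ × Cell d := fun c => (κ c, TT s (κ c) c) with hΦ
    -- fibres of Φ are tiles
    have hfib : ∀ c0 ∈ U, ∀ c, TT s (κ c0) c = TT s (κ c0) c0 → c ∈ U ∧ Φ c = Φ c0 := by
      intro c0 hc0 c hc
      have hRc : R c (κ c0) := by
        obtain ⟨p, hp, h1, h2⟩ := hRκ c0 hc0
        exact ⟨p, hp, h1, by rw [hc, h2]⟩
      have hle : κ c0 ≤ k1 := Nat.findGreatest_le _
      have hcU : c ∈ U := (hUm c).mpr ⟨κ c0, hle, hRc⟩
      have h1 : κ c0 ≤ κ c := Nat.le_findGreatest hle hRc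
      have h2 : κ c ≤ κ c0 := by
        have hRκc := hRκ c hcU
        have hTT : TT s (κ c) c = TT s (κ c) c0 := TT_eq_of_le h1 hc
        have : R c0 (κ c) := by
          obtain ⟨p, hp, h3, h4⟩ := hRκc
          exact ⟨p, hp, h3, by rw [← hTT, h4]⟩
        exact Nat.le_findGreatest (Nat.findGreatest_le _) this
      have h3 : κ c = κ c0 := le_antisymm h2 h1
      refine ⟨hcU, ?_⟩
      simp only [hΦ, h3, hc]
    have hEU : E ⊆ U := hsub
    set Ef := hE.toFinset with hEf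
    set Uf := hUfin.toFinset with hUf
    have e1 : E.ncard = Ef.card := Set.ncard_eq_toFinset_card _ hE
    have e2 : U.ncard = Uf.card := Set.ncard_eq_toFinset_card _ hUfin
    have f1 : Ef.card = ∑ p ∈ Uf.image Φ, (Ef.filter (fun c => Φ c = p)).card :=
      Finset.card_eq_sum_card_fiberwise (fun c hc => by
        apply Finset.mem_image_of_mem
        have hc' : c ∈ E := by simpa [hEf] using hc
        simpa [hUf] using hEU hc')
    have f2 : Uf.card = ∑ p ∈ Uf.image Φ, (Uf.filter (fun c => Φ c = p)).card :=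
      Finset.card_eq_sum_card_fiberwise (fun c hc => Finset.mem_image_of_mem _ hc)
    rw [e1, e2, f1, f2]
    push_cast
    rw [Finset.mul_sum]
    apply Finset.sum_le_sum
    intro p hp
    obtain ⟨c0, hc0, rfl⟩ := Finset.mem_image.mp hp
    have hc0U : c0 ∈ U := by simpa [hUf] using hc0
    have g1 : ((Ef.filter (fun c => Φ c = Φ c0) : Finset (Cell d)) : Set (Cell d)) =
        E ∩ Tile s (κ c0) (TT s (κ c0) c0) := by
      ext c
      simp only [Finset.coe_filter, Set.mem_ofPred_eq, Set.mem_inter_iff, mem_Tile, hEf,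
        Set.Finite.mem_toFinset]
      constructor
      · rintro ⟨h1, h2⟩
        refine ⟨h1, ?_⟩
        simp only [hΦ, Prod.mk.injEq] at h2
        have h3 := h2.1
        have h4 := h2.2
        rw [h3] at h4
        exact h4
      · rintro ⟨h1, h2⟩
        exact ⟨h1, (hfib c0 hc0U c h2).2⟩
    have g2 : ((Uf.filter (fun c => Φ c = Φ c0) : Finset (Cell d)) : Set (Cell d)) =
        Tile s (κ c0) (TT s (κ c0) c0) := by
      ext c
      simp only [Finset.coe_filter, Set.mem_ofPred_eq, mem_Tile, hUf,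
        Set.Finite.mem_toFinset]
      constructor
      · rintro ⟨h1, h2⟩
        simp only [hΦ, Prod.mk.injEq] at h2
        have h3 := h2.1
        have h4 := h2.2
        rw [h3] at h4
        exact h4
      · intro h2
        exact hfib c0 hc0U c h2
    have c1 : (Ef.filter (fun c => Φ c = Φ c0)).card =
        (E ∩ Tile s (κ c0) (TT s (κ c0) c0)).ncard := by
      rw [← g1, Set.ncard_coe_finset]
    have c2 : (Uf.filter (fun c => Φ c = Φ c0)).card = vol d s (κ c0) := by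
      rw [← tile_ncard s (κ c0) (TT s (κ c0) c0), ← g2, Set.ncard_coe_finset]
    rw [c1, c2]
    obtain ⟨p', hp', h1, h2⟩ := hRκ c0 hc0U
    obtain ⟨c', hc', hpe⟩ := (hFm p').mp hp'
    have h3 : κ c0 = kk c' + 1 := by rw [← h1, ← hpe]
    have h4 : TT s (κ c0) c0 = TT s (κ c0) c' := by
      rw [h2, h3, ← hpe]; rfl
    rw [h4, h3]
    exact (hpar c' hc').le

end KD.III
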